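import Pool.Agent.W97.MT.Stm

/-!
# The modular curve `X_0(21)`: statements of the independent parts

`X = η(3z)³η(7z)/(η(z)η(21z)³)` and `V = η(z)²η(7z)⁴/η(21z)⁶` satisfy
`(V - X² + 7)² = 16 X³ - 92 X² + 112 X`.  With `R = (V - X² + 7)/2`, `R² = 4 X³ - 23 X² + 28 X`, the
newform `f = q - q² + q³ - q⁴ - 2q⁵ - …` of level `21` satisfies `dX = 2πi f R dz`.  Values at the
cusps: `X = 7`, `1` (`V = 0`) at `0` and `1/7` and `X = 0`, `V = -7` at `1/3`; `℘(F) = X - 23/12`,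
`g₂ = 193/12`, `g₃ = 575/216`.
-/

set_option autoImplicit false

open UpperHalfPlane MatrixGroups CongruenceSubgroup Filter Topology

namespace Pool.Agent.Run7.h741.MG

open Pool.Agent.W97.MT (affCount ap)

/-- The curve `y² + xy = x³ - 4x - 1` (the modular curve `X_0(21)`). -/
def E21 : WeierstrassCurve ℤ := ⟨1, 0, 0, -4, -1⟩

/-- TORS: the values of `℘` at the points of order four -/
def S_TORS : Prop := ∀ L : PeriodPair, L.g₂ = 193 / 12 → L.g₃ = 575 / 216 →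
  ∀ u : ℂ, u ∉ L.lattice → (L.weierstrassP u = 61 / 12 ∨ L.weierstrassP u = -11 / 12) →
    2 * u ∉ L.lattice ∧ L.weierstrassP (2 * u) = 25 / 12 ∧ 4 * u ∈ L.lattice

/-- LAT: the lattice is rectangular -/
def S_LAT : Prop := ∃ (L : PeriodPair) (Op Om : ℝ), 0 < Op ∧ 0 < Om ∧
  L.g₂ = 193 / 12 ∧ L.g₃ = 575 / 216 ∧
  ∀ w : ℂ, w ∈ L.lattice ↔ ∃ a b : ℤ, w = a * Op + b * Om * Complex.I

/-- CP: the constant principle on `X_0(21)`; the cusps are `∞`, `0`, `1/3`, `1/7` -/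
def S_CP : Prop := ∀ g : ℂ → ℂ, DifferentiableOn ℂ g {z : ℂ | 0 < z.im} →
  (∀ a b c d : ℤ, a * d - b * (21 * c) = 1 → ∀ z : ℂ, 0 < z.im →
    g ((a * z + b) / (21 * c * z + d)) = g z) →
  (∃ B T : ℝ, ∀ z : ℂ, T < z.im → ‖g z‖ ≤ B) →
  (∃ B T : ℝ, 0 ≤ T ∧ ∀ z : ℂ, T < z.im → ‖g (-1 / (21 * z))‖ ≤ B) →
  (∃ B T : ℝ, 0 ≤ T ∧ ∀ z : ℂ, T < z.im → ‖g ((7 * z + 2) / (21 * z + 7))‖ ≤ B) →
  (∃ B T : ℝ, 0 ≤ T ∧ ∀ z : ℂ, T < z.im → ‖g ((3 * z - 1) / (21 * z - 6))‖ ≤ B) →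
  ∃ c : ℂ, ∀ z : ℂ, 0 < z.im → g z = c

/-- HASSE: the coefficient of `q^p` modulo `p` -/
def S_HASSE : Prop := ∀ (p : ℕ) [Fact p.Prime], p ≠ 2 → ∀ φ ξ σ : PowerSeries (ZMod p),
  PowerSeries.constantCoeff ξ = 1 → PowerSeries.constantCoeff σ = -2 →
  PowerSeries.X * PowerSeries.derivative (ZMod p) ξ - 2 * ξ = φ * σ →
  σ ^ 2 = 4 * ξ ^ 3 - 23 * PowerSeries.X ^ 2 * ξ ^ 2 + 28 * PowerSeries.X ^ 4 * ξ →
  PowerSeries.coeff (p - 1) φ = (ap E21 p : ZMod p)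

/-- FOUR: four divides the number of points -/
def S_FOUR : Prop := ∀ (p : ℕ), p.Prime → p ≠ 2 → p ≠ 3 → p ≠ 7 → 4 ∣ affCount E21 p + 1

/-- MIN: the point counts at the small primes -/
def S_MIN : Prop := affCount E21 2 = 3 ∧ affCount E21 3 = 2 ∧ affCount E21 7 = 8 ∧
  ∀ p : ℕ, p.Prime → affCount E21 p ≤ 2 * p

/-- DIM: `dim S_2(Γ_0(21)) ≤ 1` in the form: a cusp form with `a_1 = 0` vanishes -/
def S_DIM : Prop := ∀ g : CuspForm (Gamma0 21 : Subgroup (GL (Fin 2) ℝ)) 2,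
  (qExpansion 1 g).coeff 1 = 0 → ∀ z : ℍ, g z = 0

end Pool.Agent.Run7.h741.MG
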