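import Pool.Agent.Run7.h741.MG.Bd21
import Pool.Agent.Run7.h89.P21.Form
import Pool.Agent.Run7.h89.P21.Ap

/-!
The instance of level `21`.
-/

set_option autoImplicit false

open UpperHalfPlane MatrixGroups CongruenceSubgroup Filter Topology MeasureTheory
open scoped ModularForm Pointwise

namespace Pool.Agent.Run7.h741.MG

open Pool.Agent.W97.MT (ap)

lemma ap_bad {l : ℕ} (hl : l.Prime) (h : l ∣ 21) : |(ap E21 l : ℝ)| ≤ 1 := by
  obtain ⟨m2, m3, m7, mb⟩ := Run7.h209.P21.m_min
  have h1 : l ∣ 3 * 7 := by simpa using h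
  rcases (Nat.Prime.dvd_mul hl).1 h1 with h2 | h2
  · have : l = 3 := (Nat.prime_dvd_prime_iff_eq hl Nat.prime_three).1 h2
    subst this
    have : ap E21 3 = 1 := by unfold ap; rw [m3]; rfl
    rw [this]; norm_num
  · have : l = 7 := (Nat.prime_dvd_prime_iff_eq hl (by norm_num)).1 h2
    subst this
    have : ap E21 7 = -1 := by unfold ap; rw [m7]; rfl
    rw [this]; norm_num

/-- the boundary values of the primitive -/
theorem bd_21 : Run7.h555.P15.Bd (N := 21) form21 II := bd21 form21_apply

/-- the facts on the newform of level `21` -/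
theorem facts_21 : Run7.h555.P15.Facts 21 form21 (ap E21) :=
  facts21 form21_apply (fun _ hl h => Run7.h89.P21.ap_good hl h) (fun _ hl h => ap_bad hl h)

end Pool.Agent.Run7.h741.MG
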