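import Pool.Agent.Run7.h741.MG.Rat
import Pool.Agent.W97.MT.Lat
import Pool.Agent.Run7.h741.MF.Asm0

/-!
The elliptic curve: `℘(F) = x + 1/12`.
-/

set_option autoImplicit false

open Filter Topology Set

namespace Pool.Agent.Run7.h741.MG

open Pool.Agent.W97.TW
open Pool.Agent.W97.MT (qq qq_ne norm_qq norm_qq_lt im_mul z_ne H_open QV iI iI_pos iI_eventually tendsto_qq
  S_QEXP S_INJ S_ODE hasDerivAt_qq tpi_ne line_im line_re inv_I im_aux exists_qq Qd_diff Q_ne Q_ne_pow
  wA wA_same wA_eq wA_analytic)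
open Pool.Agent.Run7.h741.MF (hqe hinj hode)

lemma xi_diffAt {q : ℂ} (hq : ‖q‖ < 1) : DifferentiableAt ℂ xi q := by
  have hb : q ∈ Metric.ball (0 : ℂ) 1 := by simpa using hq
  have hm := Metric.isOpen_ball.mem_nhds hb
  have e1 := Q_diff.differentiableAt hm
  have e3 := (Qd_diff 3 (by norm_num)).differentiableAt hm
  have e5 := (Qd_diff 7 (by norm_num)).differentiableAt hm
  have e15 := (Qd_diff 21 (by norm_num)).differentiableAt hm
  exact (((e1.inv (Q_ne hq)).mul (e3.pow 3)).mul e5).mul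
    ((e15.pow 3).inv (pow_ne_zero _ (Q_ne_pow hq (by norm_num))))

/-- the differential equation in `q` -/
lemma q_deriv {z : ℂ} (hz : 0 < z.im) :
    qq z * deriv (fun t => xi t / t ^ 2) (qq z) = qq z * phi (qq z) * RR z := by
  have hq0 := qq_ne z
  have hd : DifferentiableAt ℂ (fun t => xi t / t ^ 2) (qq z) :=
    (xi_diffAt (norm_qq_lt hz)).div (by fun_prop) (pow_ne_zero 2 hq0)
  have h1 := hd.hasDerivAt.comp z (hasDerivAt_qq z)
  have h2 : X1 =ᶠ[𝓝 z] (fun t => xi t / t ^ 2) ∘ qq := by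
    filter_upwards [H_open.mem_nhds hz] with w hw
    exact X1_q hw
  have h3 := (h1.congr_of_eventuallyEq h2).deriv
  rw [← ff_mul_R hcp hqe hz, ff_q hz] at h3
  have h4 : (2 * Real.pi * Complex.I) * (qq z * phi (qq z) * RR z) =
    (2 * Real.pi * Complex.I) * (qq z * deriv (fun t => xi t / t ^ 2) (qq z)) := by
    linear_combination h3
  exact (mul_left_cancel₀ tpi_ne h4).symm

section lattice

variable (L : PeriodPair) (g2 : L.g₂ = 193 / 12) (g3 : L.g₃ = 575 / 216)
include g2 g3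

lemma near_inf : ∀ᶠ z in iI, F z ∉ L.lattice ∧ L.weierstrassP (F z) = X1 z + -23 / 12 := by
  have hα : AnalyticAt ℂ (fun q => xi q + -23 / 12 * q ^ 2) 0 := by
    have := xi_analytic
    fun_prop
  have h := hode L Phi (fun q => xi q + -23 / 12 * q ^ 2) Phi_analytic hα Phi_zero
    (by rw [(Phi_deriv (by simp : ‖(0 : ℂ)‖ < 1)).deriv, phi_zero]) (by simp [xi_zero]) ?_
  · rw [eventually_nhdsWithin_iff] at h
    have h1 := tendsto_qq.eventually h
    filter_upwards [h1, iI_pos] with z hz hp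
    obtain ⟨h2, h3⟩ := hz (qq_ne z)
    refine ⟨h2, h3.trans ?_⟩
    rw [X1_q hp]
    have := qq_ne z
    field_simp
  · rw [eventually_nhdsWithin_iff]
    filter_upwards [Metric.ball_mem_nhds (0 : ℂ) one_pos] with q hq1 hq0
    have hq1' : ‖q‖ < 1 := by simpa using hq1
    have hq0' : q ≠ 0 := hq0
    obtain ⟨z, hz, rfl⟩ := exists_qq hq1' hq0'
    have e : (fun t => (xi t + -23 / 12 * t ^ 2) / t ^ 2) =ᶠ[𝓝 (qq z)]
        (fun t => xi t / t ^ 2 + -23 / 12) := by
      filter_upwards [isOpen_compl_singleton.mem_nhds hq0'] with t ht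
      have ht' : t ≠ 0 := ht
      field_simp
    rw [e.deriv_eq, deriv_add_const, q_deriv hz, (Phi_deriv hq1').deriv]
    have h1 := RR_sq hcp hqe hz
    have h2 : (xi (qq z) + -23 / 12 * qq z ^ 2) / qq z ^ 2 = X1 z + -23 / 12 := by
      rw [X1_q hz]; field_simp
    rw [h2, g2, g3]
    linear_combination (qq z * phi (qq z)) ^ 2 * h1

omit g2 g3 in
lemma F_cont : ContinuousOn F {z : ℂ | 0 < z.im} := fun _ hz =>
  (F_diff hz).continuousAt.continuousWithinAt

omit g2 g3 in
lemma F_analytic {z : ℂ} (hz : 0 < z.im) : AnalyticAt ℂ F z :=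
  (show DifferentiableOn ℂ F {z : ℂ | 0 < z.im} from
    fun w hw => (F_diff hw).differentiableWithinAt).analyticAt (H_open.mem_nhds hz)

omit g2 g3 in
lemma X1_analytic {z : ℂ} (hz : 0 < z.im) : AnalyticAt ℂ X1 z :=
  (show DifferentiableOn ℂ X1 {z : ℂ | 0 < z.im} from
    fun w hw => (X1_diff hw).differentiableWithinAt).analyticAt (H_open.mem_nhds hz)

/-- the parametrisation -/
theorem wp_F : ∀ z : ℂ, 0 < z.im →
    F z ∉ L.lattice ∧ L.weierstrassP (F z) = X1 z + -23 / 12 := by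
  set V : Set ℂ := {z : ℂ | 0 < z.im} ∩
    {z : ℂ | ∀ᶠ w in 𝓝 z, F w ∉ L.lattice ∧ L.weierstrassP (F w) = X1 w + -23 / 12} with hV
  have hVo : IsOpen V := H_open.inter isOpen_setOfPred_eventually_nhds
  have hne : ({z : ℂ | 0 < z.im} ∩ V).Nonempty := by
    obtain ⟨T, hT, h1⟩ := iI_eventually.1 (near_inf L g2 g3)
    have him : 0 < (((T + 1 : ℝ) : ℂ) * Complex.I).im := by simp; linarith
    refine ⟨((T + 1 : ℝ) : ℂ) * Complex.I, him, him, ?_⟩
    have : {w : ℂ | T < w.im} ∈ 𝓝 (((T + 1 : ℝ) : ℂ) * Complex.I) :=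
      (isOpen_lt continuous_const Complex.continuous_im).mem_nhds (by simp)
    filter_upwards [this] with w hw
    exact h1 w hw
  have hcl : closure V ∩ {z : ℂ | 0 < z.im} ⊆ V := by
    rintro z0 ⟨hz0, him⟩
    have him' : 0 < z0.im := him
    refine ⟨him, ?_⟩
    by_cases hl : F z0 ∈ L.lattice
    · exfalso
      set O : Set ℂ := {z : ℂ | 0 < z.im} ∩ F ⁻¹' (((L.lattice : Set ℂ) \ {F z0})ᶜ) with hO
      have hOo : IsOpen O := F_cont.isOpen_inter_preimage H_open L.isOpen_compl_lattice_sdiff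
      have hz0O : z0 ∈ O := ⟨him, by simp⟩
      obtain ⟨ε, hε, hball⟩ := Metric.isOpen_iff.1 hOo z0 hz0O
      obtain ⟨v, hvB, hvV⟩ := mem_closure_iff.1 hz0 _ Metric.isOpen_ball (Metric.mem_ball_self hε)
      have hA : AnalyticOnNhd ℂ (fun w => wA L (F z0) (F w)) (Metric.ball z0 ε) := fun w hw =>
        (wA_analytic L (F z0) (hball hw).2).fun_comp (F_analytic (hball hw).1)
      have hB : AnalyticOnNhd ℂ (fun w => (F w - F z0) ^ 2 * (X1 w + -23 / 12)) (Metric.ball z0 ε) :=
        fun w hw => by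
          have h1 := F_analytic (hball hw).1
          have h2 := X1_analytic (hball hw).1
          fun_prop
      have heq : (fun w => wA L (F z0) (F w)) =ᶠ[𝓝 v] fun w => (F w - F z0) ^ 2 * (X1 w + -23 / 12) := by
        filter_upwards [hvV.2] with w hw
        rw [wA_eq L hl (fun h => hw.1 (by rw [h]; exact hl)), hw.2]
      have h3 := hA.eqOn_of_preconnected_of_eventuallyEq hB
        (convex_ball z0 ε).isPreconnected hvB heq (Metric.mem_ball_self hε)
      simp only [wA_same, sub_self] at h3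
      norm_num at h3
    · set O : Set ℂ := {z : ℂ | 0 < z.im} ∩ F ⁻¹' ((L.lattice : Set ℂ)ᶜ) with hO
      have hOo : IsOpen O := F_cont.isOpen_inter_preimage H_open L.isClosed_lattice.isOpen_compl
      have hz0O : z0 ∈ O := ⟨him, hl⟩
      obtain ⟨ε, hε, hball⟩ := Metric.isOpen_iff.1 hOo z0 hz0O
      obtain ⟨v, hvB, hvV⟩ := mem_closure_iff.1 hz0 _ Metric.isOpen_ball (Metric.mem_ball_self hε)
      have hA : AnalyticOnNhd ℂ (fun w => L.weierstrassP (F w)) (Metric.ball z0 ε) := fun w hw =>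
        (L.analyticOnNhd_weierstrassP (F w) (hball hw).2).fun_comp (F_analytic (hball hw).1)
      have hB : AnalyticOnNhd ℂ (fun w => X1 w + -23 / 12) (Metric.ball z0 ε) :=
        fun w hw => by
          have h2 := X1_analytic (hball hw).1
          fun_prop
      have heq : (fun w => L.weierstrassP (F w)) =ᶠ[𝓝 v] fun w => X1 w + -23 / 12 := by
        filter_upwards [hvV.2] with w hw
        exact hw.2
      have h3 := hA.eqOn_of_preconnected_of_eventuallyEq hB
        (convex_ball z0 ε).isPreconnected hvB heq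
      filter_upwards [Metric.ball_mem_nhds z0 hε] with w hw
      exact ⟨(hball hw).2, h3 hw⟩
  have hsub := (convex_halfSpace_im_gt 0).isPreconnected.subset_of_closure_inter_subset hVo hne hcl
  intro z hz
  exact (hsub hz).2.self_of_nhds

/-- the periods are in the lattice -/
theorem period_mem {a b c d : ℤ} (h : a * d - b * (21 * c) = 1) {p : ℂ}
    (hp : ∀ z : ℂ, 0 < z.im → F ((a * z + b) / (21 * c * z + d)) = F z + p) :
    p ∈ L.lattice := by
  have hw := wp_F L g2 g3
  by_contra hpL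
  have h1 : ∀ z : ℂ, 0 < z.im → 2 * F z + p ∈ L.lattice := by
    intro z hz
    have hm := (G_gamma h hz).1
    obtain ⟨e1, e2⟩ := hw z hz
    obtain ⟨e3, e4⟩ := hw _ hm
    rw [X1_inv hcp hqe a b c d h z hz, ← e2] at e4
    rw [hp z hz] at e3 e4
    rcases hinj L _ _ e3 e1 e4 with h5 | h5
    · exact absurd (by simpa using h5) hpL
    · have : F z + p + F z = 2 * F z + p := by ring
      rwa [this] at h5
  have h2 : Tendsto (fun z => 2 * F z + p) iI (𝓝 (2 * 0 + p)) :=
    (F_QV.tendsto.const_mul 2).add_const p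
  have h3 := L.isClosed_lattice.mem_of_tendsto h2 (iI_pos.mono fun z hz => h1 z hz)
  apply hpL
  simpa using h3

/-- the values at the cusps -/
theorem cusp_value {m j : ℂ → ℂ} {x y : ℂ} (h : IsCusp m j x y) {C : ℂ}
    (hC : Tendsto (fun z => F (m z)) iI (𝓝 C)) :
    C ∉ L.lattice ∧ L.weierstrassP C = x + -23 / 12 := by
  have hw := wp_F L g2 g3
  have hX : Tendsto (fun z => X1 (m z) + -23 / 12) iI (𝓝 (x + -23 / 12)) :=
    h.X.tendsto.add_const _
  have hCL : C ∉ L.lattice := by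
    intro hCL
    have h1 : Tendsto (fun z => wA L C (F (m z))) iI (𝓝 (wA L C C)) :=
      (wA_analytic L C (by simp)).continuousAt.tendsto.comp hC
    rw [wA_same] at h1
    have h2 : Tendsto (fun z => (F (m z) - C) ^ 2 * (X1 (m z) + -23 / 12)) iI
        (𝓝 ((C - C) ^ 2 * (x + -23 / 12))) := ((hC.sub_const C).pow 2).mul hX
    have h3 : (fun z => wA L C (F (m z))) =ᶠ[iI] fun z => (F (m z) - C) ^ 2 * (X1 (m z) + -23 / 12) := by
      filter_upwards [iI_pos] with z hz
      obtain ⟨e1, e2⟩ := hw _ (h.pos z hz)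
      rw [wA_eq L hCL (fun h => e1 (by rw [h]; exact hCL)), e2]
    have h4 := tendsto_nhds_unique (h1.congr' h3) h2
    norm_num at h4
  refine ⟨hCL, ?_⟩
  have h1 : Tendsto (fun z => L.weierstrassP (F (m z))) iI (𝓝 (L.weierstrassP C)) :=
    (L.analyticOnNhd_weierstrassP C hCL).continuousAt.tendsto.comp hC
  refine tendsto_nhds_unique h1 (hX.congr' ?_)
  filter_upwards [iI_pos] with z hz
  exact (hw _ (h.pos z hz)).2.symm

omit g2 g3 in
/-- limits at the cusps -/
lemma exists_limit {m j : ℂ → ℂ} (h : IsMap m j) :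
    ∃ C : ℂ, Tendsto (fun z => F (m z)) iI (𝓝 C) := by
  obtain ⟨C, Ψ, aΨ, h0, h1⟩ := h.const
  have h2 : Tendsto (fun z => C + Ψ (qq z)) iI (𝓝 (C + Ψ 0)) :=
    (aΨ.continuousAt.tendsto.comp tendsto_qq).const_add C
  exact ⟨C + Ψ 0, h2.congr' (h1.mono fun z hz => hz.symm)⟩

/-- the integral from `r` -/
noncomputable def II (r : ℚ) : ℂ :=
  2 * Real.pi * ∫ t in Ioi (0 : ℝ), ff ((r : ℂ) + t * Complex.I)

/-- all the integrals -/
theorem integrals (htors : S_TORS) :
    II 0 ∉ L.lattice ∧ 2 * II 0 ∉ L.lattice ∧ 4 * II 0 ∈ L.lattice ∧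
    (∀ r : ℚ, MeasureTheory.IntegrableOn (fun t : ℝ => ff ((r : ℂ) + t * Complex.I)) (Ioi 0)) ∧
    (∀ r : ℚ, ¬ (3 : ℤ) ∣ r.den → ¬ (7 : ℤ) ∣ r.den → II r - II 0 ∈ L.lattice) := by
  have c15 := isCusp21 hcp hqe
  have c5 := cusp7
  have c3 := isCusp3 hcp hqe
  obtain ⟨C15, l15⟩ := exists_limit c15.map
  obtain ⟨C5, l5⟩ := exists_limit c5.map
  obtain ⟨C3, l3⟩ := exists_limit c3.map
  obtain ⟨n15, v15⟩ := cusp_value L g2 g3 c15 l15
  have key : ∀ {m j : ℂ → ℂ} (_ : IsMap m j) {C : ℂ} (_ : Tendsto (fun z => F (m z)) iI (𝓝 C))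
      (r : ℚ), Hit (r : ℂ) m → MeasureTheory.IntegrableOn
        (fun t : ℝ => ff ((r : ℂ) + t * Complex.I)) (Ioi 0) ∧ II r - C ∈ L.lattice := by
    intro m j h C hC r hr
    obtain ⟨h1, a, b, c, d, hdet, p, hp, h2⟩ := hit_prim h hC (by simp) hr
    refine ⟨h1, ?_⟩
    unfold II
    rw [h2, add_sub_cancel_left]
    exact period_mem L g2 g3 hdet hp
  have i0 := (key c15.map l15 0 (exists_hit_coprime 0 (by simp) (by simp))).2
  have hper : ∀ x y : ℂ, x - y ∈ L.lattice → L.weierstrassP x = L.weierstrassP y := by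
    intro x y hxy
    have := L.weierstrassP_add_coe y ⟨x - y, hxy⟩
    simpa using this
  have hII : II 0 ∉ L.lattice := by
    intro h
    apply n15
    have := sub_mem h i0
    simpa using this
  have hv : L.weierstrassP (II 0) = 61 / 12 := by
    rw [hper _ _ i0, v15]; norm_num
  obtain ⟨t2, w2, t4⟩ := htors L g2 g3 (II 0) hII (Or.inl hv)
  refine ⟨hII, t2, t4, ?_, ?_⟩
  · intro r
    rcases exists_hit r with h | h | h | h
    · exact (key c15.map l15 r h).1
    · exact (key c5.map l5 r h).1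
    · exact (key c3.map l3 r h).1
    · exact (key idMap F_QV.tendsto r h).1
  · intro r h3 h5
    have := sub_mem (key c15.map l15 r (exists_hit_coprime r h3 h5)).2 i0
    convert this using 1
    ring

end lattice

end Pool.Agent.Run7.h741.MG
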