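import Pool.Agent.W97.MT.AL
import Pool.Agent.Run7.h741.MG.Eta

/-!
The Atkin-Lehner maps of level `21`.
-/

set_option autoImplicit false

open UpperHalfPlane MatrixGroups CongruenceSubgroup Filter Topology
open scoped ModularForm Pointwise

namespace Pool.Agent.Run7.h741.MG

open Pool.Agent.W97.TW
open Pool.Agent.W97.MT (qq tt tt_ne qq_ne tt_pow norm_qq norm_qq_lt eta_mul eta_one G_mul Q_ne
  Q_ne_pow G_ne im_mul ze_dvd I4 z_ne ze6)

section w21

variable {z : ℂ} (hz : 0 < z.im)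
include hz

lemma w21_pos : 0 < (-1 / (21 * z) : ℂ).im := by
  have h := (im_moebius (a := 0) (b := -1) (c := 1) (d := 0) (by norm_num)
    (im_mul hz 21 (by norm_num))).1
  simpa using h

lemma w21_G : G (-1 / (21 * z)) = -Complex.I * (21 * z) * G (21 * z) ∧
    G (3 * (-1 / (21 * z))) = -Complex.I * (7 * z) * G (7 * z) ∧
    G (7 * (-1 / (21 * z))) = -Complex.I * (3 * z) * G (3 * z) ∧
    G (21 * (-1 / (21 * z))) = -Complex.I * z * G z := by
  have h0 := z_ne hz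
  refine ⟨G_S (im_mul hz 21 (by norm_num)), ?_, ?_, ?_⟩
  · rw [show (3 : ℂ) * (-1 / (21 * z)) = -1 / (7 * z) by field_simp; norm_num]
    exact G_S (im_mul hz 7 (by norm_num))
  · rw [show (7 : ℂ) * (-1 / (21 * z)) = -1 / (3 * z) by field_simp; norm_num]
    exact G_S (im_mul hz 3 (by norm_num))
  · rw [show (21 : ℂ) * (-1 / (21 * z)) = -1 / z by field_simp]
    exact G_S hz

lemma X1_w21 : X1 (-1 / (21 * z)) ^ 2 = 49 * ((Q (qq z) ^ 3)⁻¹ * Q (qq z ^ 3) * Q (qq z ^ 7) ^ 3 *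
    (Q (qq z ^ 21))⁻¹) ^ 2 := by
  obtain ⟨e1, e3, e7, e21⟩ := w21_G hz
  have h0 := z_ne hz
  have g1 := G_mul 1 z
  have g3 := G_mul 3 z
  have g7 := G_mul 7 z
  have g21 := G_mul 21 z
  push_cast at g1 g3 g7 g21
  rw [one_mul, pow_one] at g1
  have hq := norm_qq_lt hz
  have n1 := Q_ne hq
  have n21 := Q_ne_pow hq (d := 21) (by norm_num)
  have ht := tt_ne z
  rw [X1_sq]
  unfold Gs
  rw [e1, e3, e7, e21, g1, g3, g7, g21, zpow_neg_one, zpow_one, zpow_neg]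
  norm_cast
  have hI : Complex.I ≠ 0 := Complex.I_ne_zero
  field_simp
  ring_nf

lemma V1_w21 : V1 (-1 / (21 * z)) = qq z ^ 2 * (189 * ((Q (qq z) ^ 3)⁻¹ * Q (qq z ^ 3) ^ 2 *
    Q (qq z ^ 21)) ^ 2) := by
  obtain ⟨e1, e3, e7, e21⟩ := w21_G hz
  have h0 := z_ne hz
  have g1 := G_mul 1 z
  have g3 := G_mul 3 z
  have g7 := G_mul 7 z
  have g21 := G_mul 21 z
  push_cast at g1 g3 g7 g21
  rw [one_mul, pow_one] at g1
  have hq := norm_qq_lt hz
  have n1 := Q_ne hq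
  have n21 := Q_ne_pow hq (d := 21) (by norm_num)
  have ht := tt_ne z
  have hq2 : qq z ^ 2 = tt z ^ 48 := by rw [← tt_pow]; ring
  rw [hq2, V1_eq]
  unfold Gs
  rw [e1, e3, e7, e21, g1, g3, g7, g21, zpow_one, zpow_zero, mul_one, zpow_neg]
  norm_cast
  have hI : Complex.I ≠ 0 := Complex.I_ne_zero
  field_simp
  ring_nf

end w21

section w7

variable {z : ℂ} (hz : 0 < z.im)
include hz

lemma w7_aux : (3 * z + 1 : ℂ) ≠ 0 := by
  intro h
  have := congrArg Complex.im h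
  simp at this
  exact hz.ne' this

lemma w7_pos : 0 < ((7 * z + 2) / (21 * z + 7) : ℂ).im := by
  have h := (im_moebius (a := 1) (b := 2) (c := 3) (d := 7) (by norm_num)
    (im_mul hz 7 (by norm_num))).1
  push_cast at h
  convert h using 2
  congr 1 <;> ring

lemma w7_G : G ((7 * z + 2) / (21 * z + 7)) = ze ^ (11 : ℤ) * (21 * z + 7) * G (7 * z) ∧
    G (3 * ((7 * z + 2) / (21 * z + 7))) = ze ^ (5 : ℤ) * (21 * z + 7) * G (21 * z) ∧
    G (7 * ((7 * z + 2) / (21 * z + 7))) = ze ^ (11 : ℤ) * (3 * z + 1) * G z ∧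
    G (21 * ((7 * z + 2) / (21 * z + 7))) = ze ^ (5 : ℤ) * (3 * z + 1) * G (3 * z) := by
  have h0 := w7_aux hz
  have h7 : (21 * z + 7 : ℂ) = 7 * (3 * z + 1) := by ring
  have e1 := G_moebius (a := 1) (b := 2) (c := 3) (d := 7) (by norm_num)
    (im_mul hz 7 (by norm_num))
  have e3 := G_moebius (a := 1) (b := 6) (c := 1) (d := 7) (by norm_num)
    (im_mul hz 21 (by norm_num))
  have e7 := G_moebius (a := 7) (b := 2) (c := 3) (d := 1) (by norm_num) hz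
  have e21 := G_moebius (a := 7) (b := 6) (c := 1) (d := 1) (by norm_num)
    (im_mul hz 3 (by norm_num))
  rw [ze_congr (m := kap (1 : ℤ) 2 3 7) (n := 11) (by norm_num [kap])] at e1
  rw [ze_congr (m := kap (1 : ℤ) 6 1 7) (n := 5) (by norm_num [kap])] at e3
  rw [ze_congr (m := kap (7 : ℤ) 2 3 1) (n := 11) (by norm_num [kap])] at e7
  rw [ze_congr (m := kap (7 : ℤ) 6 1 1) (n := 5) (by norm_num [kap])] at e21
  push_cast at e1 e3 e7 e21
  refine ⟨?_, ?_, ?_, ?_⟩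
  · rw [show (7 * z + 2) / (21 * z + 7) = (1 * (7 * z) + 2) / (3 * (7 * z) + 7) by
      congr 1 <;> ring, e1]
    ring
  · rw [show 3 * ((7 * z + 2) / (21 * z + 7)) = (1 * (21 * z) + 6) / (1 * (21 * z) + 7) by
      rw [← mul_div_assoc]; congr 1 <;> ring, e3]
    ring
  · rw [show 7 * ((7 * z + 2) / (21 * z + 7)) = (7 * z + 2) / (3 * z + 1) by
      rw [h7]; field_simp, e7]
  · rw [show 21 * ((7 * z + 2) / (21 * z + 7)) = (7 * (3 * z) + 6) / (1 * (3 * z) + 1) by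
      rw [h7, one_mul]; field_simp; ring, e21]
    ring

lemma X1_w7 : X1 ((7 * z + 2) / (21 * z + 7)) ^ 2 = qq z ^ 4 * (49 * (Q (qq z) *
    (Q (qq z ^ 3) ^ 3)⁻¹ * (Q (qq z ^ 7))⁻¹ * (Q (qq z ^ 21)) ^ 3) ^ 2) := by
  obtain ⟨e1, e3, e7, e21⟩ := w7_G hz
  have h0 := w7_aux hz
  have h7 : (21 * z + 7 : ℂ) = 7 * (3 * z + 1) := by ring
  have g1 := G_mul 1 z
  have g3 := G_mul 3 z
  have g7 := G_mul 7 z
  have g21 := G_mul 21 z
  push_cast at g1 g3 g7 g21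
  rw [one_mul, pow_one] at g1
  have hq := norm_qq_lt hz
  have n1 := Q_ne hq
  have n3 := Q_ne_pow hq (d := 3) (by norm_num)
  have n7 := Q_ne_pow hq (d := 7) (by norm_num)
  have n21 := Q_ne_pow hq (d := 21) (by norm_num)
  have ht := tt_ne z
  have hze := ze_ne
  have hq2 : qq z ^ 4 = tt z ^ 96 := by rw [← tt_pow]; ring
  rw [hq2, X1_sq]
  unfold Gs
  rw [e1, e3, e7, e21, g1, g3, g7, g21, zpow_neg_one, zpow_one, zpow_neg, h7]
  norm_cast
  push_cast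
  field_simp
  ring_nf

lemma V1_w7 : V1 ((7 * z + 2) / (21 * z + 7)) = -7 * (Q (qq z) ^ 2 * (Q (qq z ^ 3) ^ 3)⁻¹ *
    Q (qq z ^ 7)) ^ 2 := by
  obtain ⟨e1, e3, e7, e21⟩ := w7_G hz
  have h0 := w7_aux hz
  have h7 : (21 * z + 7 : ℂ) = 7 * (3 * z + 1) := by ring
  have g1 := G_mul 1 z
  have g3 := G_mul 3 z
  have g7 := G_mul 7 z
  have g21 := G_mul 21 z
  push_cast at g1 g3 g7 g21
  rw [one_mul, pow_one] at g1
  have hq := norm_qq_lt hz
  have n1 := Q_ne hq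
  have n3 := Q_ne_pow hq (d := 3) (by norm_num)
  have n7 := Q_ne_pow hq (d := 7) (by norm_num)
  have n21 := Q_ne_pow hq (d := 21) (by norm_num)
  have ht := tt_ne z
  have hze := ze_ne
  have h18 : ze ^ 18 = -1 := by
    have : ze ^ (18 : ℤ) = ze ^ (6 : ℤ) := ze_congr (by norm_num)
    rw [ze6] at this
    exact_mod_cast this
  rw [V1_eq]
  unfold Gs
  rw [e1, e3, e7, e21, g1, g3, g7, g21, zpow_one, zpow_zero, mul_one, zpow_neg, h7]
  norm_cast
  push_cast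
  field_simp
  ring_nf
  rw [h18]

end w7

section w3

variable {z : ℂ} (hz : 0 < z.im)
include hz

lemma w3_aux : (7 * z - 2 : ℂ) ≠ 0 := by
  intro h
  have := congrArg Complex.im h
  simp at this
  exact hz.ne' this

lemma w3_pos : 0 < ((3 * z - 1) / (21 * z - 6) : ℂ).im := by
  have h := (im_moebius (a := 1) (b := -1) (c := 7) (d := -6) (by norm_num)
    (im_mul hz 3 (by norm_num))).1
  push_cast at h
  convert h using 2
  congr 1 <;> ring

lemma w3_G : G ((3 * z - 1) / (21 * z - 6)) = ze ^ (4 : ℤ) * (21 * z - 6) * G (3 * z) ∧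
    G (3 * ((3 * z - 1) / (21 * z - 6))) = ze ^ (10 : ℤ) * (7 * z - 2) * G z ∧
    G (7 * ((3 * z - 1) / (21 * z - 6))) = ze ^ (4 : ℤ) * (21 * z - 6) * G (21 * z) ∧
    G (21 * ((3 * z - 1) / (21 * z - 6))) = ze ^ (10 : ℤ) * (7 * z - 2) * G (7 * z) := by
  have h0 := w3_aux hz
  have h7 : (21 * z - 6 : ℂ) = 3 * (7 * z - 2) := by ring
  have e1 := G_moebius (a := 1) (b := -1) (c := 7) (d := -6) (by norm_num)
    (im_mul hz 3 (by norm_num))
  have e3 := G_moebius (a := 3) (b := -1) (c := 7) (d := -2) (by norm_num) hz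
  have e7 := G_moebius (a := 1) (b := -7) (c := 1) (d := -6) (by norm_num)
    (im_mul hz 21 (by norm_num))
  have e21 := G_moebius (a := 3) (b := -7) (c := 1) (d := -2) (by norm_num)
    (im_mul hz 7 (by norm_num))
  rw [ze_congr (m := kap (1 : ℤ) (-1) 7 (-6)) (n := 4) (by norm_num [kap])] at e1
  rw [ze_congr (m := kap (3 : ℤ) (-1) 7 (-2)) (n := 10) (by norm_num [kap])] at e3
  rw [ze_congr (m := kap (1 : ℤ) (-7) 1 (-6)) (n := 4) (by norm_num [kap])] at e7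
  rw [ze_congr (m := kap (3 : ℤ) (-7) 1 (-2)) (n := 10) (by norm_num [kap])] at e21
  push_cast at e1 e3 e7 e21
  refine ⟨?_, ?_, ?_, ?_⟩
  · rw [show (3 * z - 1) / (21 * z - 6) = (1 * (3 * z) + -1) / (7 * (3 * z) + -6) by
      congr 1 <;> ring, e1]
    ring
  · rw [show 3 * ((3 * z - 1) / (21 * z - 6)) = (3 * z + -1) / (7 * z + -2) by
      rw [h7, show (7 * z + -2 : ℂ) = 7 * z - 2 by ring]; field_simp; ring, e3]
    ring
  · rw [show 7 * ((3 * z - 1) / (21 * z - 6)) = (1 * (21 * z) + -7) / (1 * (21 * z) + -6) by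
      rw [← mul_div_assoc]; congr 1 <;> ring, e7]
    ring
  · rw [show 21 * ((3 * z - 1) / (21 * z - 6)) = (3 * (7 * z) + -7) / (1 * (7 * z) + -2) by
      rw [h7, show (1 * (7 * z) + -2 : ℂ) = 7 * z - 2 by ring]; field_simp; ring, e21]
    ring

lemma X1_w3 : X1 ((3 * z - 1) / (21 * z - 6)) ^ 2 = (Q (qq z) ^ 3 * (Q (qq z ^ 3))⁻¹ *
    (Q (qq z ^ 7) ^ 3)⁻¹ * (Q (qq z ^ 21))) ^ 2 := by
  obtain ⟨e1, e3, e7, e21⟩ := w3_G hz
  have h0 := w3_aux hz
  have h7 : (21 * z - 6 : ℂ) = 3 * (7 * z - 2) := by ring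
  have g1 := G_mul 1 z
  have g3 := G_mul 3 z
  have g7 := G_mul 7 z
  have g21 := G_mul 21 z
  push_cast at g1 g3 g7 g21
  rw [one_mul, pow_one] at g1
  have hq := norm_qq_lt hz
  have n1 := Q_ne hq
  have n3 := Q_ne_pow hq (d := 3) (by norm_num)
  have n7 := Q_ne_pow hq (d := 7) (by norm_num)
  have n21 := Q_ne_pow hq (d := 21) (by norm_num)
  have ht := tt_ne z
  have hze := ze_ne
  have h24 : ze ^ 24 = 1 := by
    have : ze ^ (24 : ℤ) = ze ^ (0 : ℤ) := ze_congr (by norm_num)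
    rw [zpow_zero] at this
    exact_mod_cast this
  rw [X1_sq]
  unfold Gs
  rw [e1, e3, e7, e21, g1, g3, g7, g21, zpow_neg_one, zpow_one, zpow_neg, h7]
  norm_cast
  push_cast
  field_simp

lemma V1_w3 : V1 ((3 * z - 1) / (21 * z - 6)) = qq z ^ 2 * (-27 * (Q (qq z ^ 3) *
    (Q (qq z ^ 7) ^ 3)⁻¹ * (Q (qq z ^ 21)) ^ 2) ^ 2) := by
  obtain ⟨e1, e3, e7, e21⟩ := w3_G hz
  have h0 := w3_aux hz
  have h7 : (21 * z - 6 : ℂ) = 3 * (7 * z - 2) := by ring
  have g1 := G_mul 1 z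
  have g3 := G_mul 3 z
  have g7 := G_mul 7 z
  have g21 := G_mul 21 z
  push_cast at g1 g3 g7 g21
  rw [one_mul, pow_one] at g1
  have hq := norm_qq_lt hz
  have n1 := Q_ne hq
  have n3 := Q_ne_pow hq (d := 3) (by norm_num)
  have n7 := Q_ne_pow hq (d := 7) (by norm_num)
  have n21 := Q_ne_pow hq (d := 21) (by norm_num)
  have ht := tt_ne z
  have hze := ze_ne
  have hq2 : qq z ^ 2 = tt z ^ 48 := by rw [← tt_pow]; ring
  have h18 : ze ^ 18 = -1 := by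
    have : ze ^ (18 : ℤ) = ze ^ (6 : ℤ) := ze_congr (by norm_num)
    rw [ze6] at this
    exact_mod_cast this
  rw [hq2, V1_eq]
  unfold Gs
  rw [e1, e3, e7, e21, g1, g3, g7, g21, zpow_one, zpow_zero, mul_one, zpow_neg, h7]
  norm_cast
  push_cast
  field_simp
  ring_nf
  rw [h18]
  norm_num

end w3

end Pool.Agent.Run7.h741.MG
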