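import Pool.Agent.Run7.h741.MG.Ser
import Pool.Agent.Run7.h741.MG.Opt
import Pool.Agent.Run7.h135.P21.Dim
import Pool.Agent.Run7.h209.P21.M
import Pool.Agent.W97.MT.Coef
import Pool.Agent.W97.MT.Dim
import Pool.Agent.W97.TW.Lfun
import Pool.Agent.W97.TW.Hecke

/-!
Coefficients and Hecke eigenvalues.
-/

set_option autoImplicit false

open UpperHalfPlane MatrixGroups CongruenceSubgroup Filter Topology
open scoped ModularForm Pointwise

namespace Pool.Agent.Run7.h741.MG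

open Pool.Agent.W97.TW
open Pool.Agent.W97.MT (qq qq_ne norm_qq norm_qq_lt im_mul z_ne H_open QV iI iI_pos iI_eventually tendsto_qq
  S_QEXP S_INJ S_ODE S_SUB hasDerivAt_qq tpi_ne line_im line_re inv_I im_aux exists_qq dslope_analytic
  qParam_one cusp_expansion ap Tr)

section coef

variable {f21 : CuspForm (Gamma0 21 : Subgroup (GL (Fin 2) ℝ)) 2} (hf : ∀ z : ℍ, f21 z = ff z)
  {P : PowerSeries ℤ} (rP : W97.MT.Rep phi P)
include hf rP

lemma coeff_f21 (n : ℕ) : (qExpansion 1 f21).coeff n =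
    ((PowerSeries.coeff n (PowerSeries.X * P) : ℤ) : ℂ) := by
  have h1 := ModularFormClass.qExpansion_coeff_unique
    (Γ := (Gamma0 21 : Subgroup (GL (Fin 2) ℝ))) (k := 2)
    (c := fun n => ((PowerSeries.coeff n (PowerSeries.X * P) : ℤ) : ℂ)) one_pos one_mem0
    (f := f21) (fun τ => by
      have h2 : HasSum (fun n : ℕ => PowerSeries.coeff n (PowerSeries.map (Int.castRingHom ℂ)
        (PowerSeries.X * P)) * qq τ ^ n) (qq τ * phi (qq τ)) :=
          (W97.MT.Rep.X.mul rP) (qq τ) (norm_qq_lt τ.im_pos)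
      simp only [PowerSeries.coeff_map, eq_intCast] at h2
      rw [hf, ff_q τ.im_pos]
      have h3 : Function.Periodic.qParam 1 (τ : ℂ) = qq τ := qParam_one τ
      rw [h3]
      simpa only [smul_eq_mul] using h2) n
  exact h1.symm

lemma coeff_one (hP0 : PowerSeries.coeff 0 P = 1) : (qExpansion 1 f21).coeff 1 = 1 := by
  rw [coeff_f21 hf rP 1, show (1 : ℕ) = 0 + 1 by rfl, PowerSeries.coeff_succ_X_mul, hP0]
  norm_num

/-- the space of cusp forms is one-dimensional -/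
lemma dim_one (hP0 : PowerSeries.coeff 0 P = 1)
    (g : CuspForm (Gamma0 21 : Subgroup (GL (Fin 2) ℝ)) 2) : ∃ c : ℂ, ∀ z : ℍ, g z = c * f21 z := by
  have h1 := coeff_one hf rP hP0
  obtain ⟨c, hc⟩ : ∃ c : ℂ, c = (qExpansion 1 g).coeff 1 := ⟨_, rfl⟩
  refine ⟨c, fun z => ?_⟩
  obtain ⟨G, hG⟩ : ∃ G : CuspForm (Gamma0 21 : Subgroup (GL (Fin 2) ℝ)) 2, G = g - c • f21 := ⟨_, rfl⟩
  have hGf : (G : ℍ → ℂ) = (g : ℍ → ℂ) - c • (f21 : ℍ → ℂ) := by
    rw [hG]
    rfl
  have ag := ModularFormClass.analyticAt_cuspFunction_zero g (one_pos : (0 : ℝ) < 1) one_mem0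
  have af := ModularFormClass.analyticAt_cuspFunction_zero f21 (one_pos : (0 : ℝ) < 1) one_mem0
  have h2 : (qExpansion 1 G).coeff 1 = 0 := by
    have e0 := ModularFormClass.analyticAt_cuspFunction_zero (c • f21) (one_pos : (0 : ℝ) < 1) one_mem0
    have e1 : qExpansion 1 (G : ℍ → ℂ) =
        qExpansion 1 (g : ℍ → ℂ) - qExpansion 1 (c • (f21 : ℍ → ℂ)) := by
      rw [hGf]
      exact UpperHalfPlane.qExpansion_sub ag e0
    have e2 : qExpansion 1 (c • (f21 : ℍ → ℂ)) = c • qExpansion 1 (f21 : ℍ → ℂ) :=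
      UpperHalfPlane.qExpansion_smul af c
    rw [e1, e2, map_sub, PowerSeries.coeff_smul, h1, ← hc]
    simp
  have h3 := Run7.h135.P21.t_DIM G h2 z
  have h4 : G z = g z - c * f21 z := congrFun hGf z
  rw [h4] at h3
  exact sub_eq_zero.1 h3

lemma hecke_f21 (hP0 : PowerSeries.coeff 0 P = 1) {p : ℕ} (hp : p.Prime) (z : ℍ) :
    W97.MT.hecke 21 p f21 z = ((PowerSeries.coeff (p - 1) P : ℤ) : ℂ) * f21 z := by
  obtain ⟨c, hc⟩ := dim_one hf rP hP0 (heckeForm f21 hp)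
  have h1 : ∀ z : ℍ, heckeT 21 2 p f21 z = c * f21 z := hc
  have h2 := hecke_rec f21 hp.pos h1 1
  have h3 : A f21 1 = 1 := by
    unfold A
    exact coeff_one hf rP hP0
  have h4 : A f21 p = ((PowerSeries.coeff (p - 1) P : ℤ) : ℂ) := by
    unfold A
    rw [coeff_f21 hf rP p]
    obtain ⟨m, rfl⟩ : ∃ m, p = m + 1 := ⟨p - 1, by have := hp.pos; omega⟩
    rw [PowerSeries.coeff_succ_X_mul]
    rfl
  have h5 : B f21 p 1 = A f21 p := by
    unfold B
    rw [if_neg (c := p ∣ 1) (fun h => hp.one_lt.ne' (Nat.dvd_one.1 h)), mul_zero, zero_add, mul_one]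
  rw [h3, mul_one, h5, h4] at h2
  have h6 : W97.MT.hecke 21 p f21 z = heckeT 21 2 p f21 z := by
    unfold W97.MT.hecke heckeT
    norm_num
  rw [h6, h1, h2]

end coef

/-- the coefficient modulo `p` -/
lemma coeff_mod (hasse : S_HASSE) {Ξ P σ : PowerSeries ℤ}
    (cΞ : PowerSeries.constantCoeff Ξ = 1) (cσ : PowerSeries.constantCoeff σ = -2)
    (h2 : PowerSeries.X * PowerSeries.derivative ℤ Ξ - 2 * Ξ = P * σ)
    (h3 : σ ^ 2 = 4 * Ξ ^ 3 - 23 * PowerSeries.X ^ 2 * Ξ ^ 2 + 28 * PowerSeries.X ^ 4 * Ξ)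
    {p : ℕ} (hp : p.Prime) (hp2 : p ≠ 2) :
    ((PowerSeries.coeff (p - 1) P : ℤ) : ZMod p) = (ap E21 p : ZMod p) := by
  have : Fact p.Prime := ⟨hp⟩
  set m := PowerSeries.map (Int.castRingHom (ZMod p)) with hm
  have hX : m PowerSeries.X = PowerSeries.X := PowerSeries.map_X _
  have hd : m (PowerSeries.derivative ℤ Ξ) = PowerSeries.derivative (ZMod p) (m Ξ) := by
    ext n
    simp [hm, PowerSeries.coeff_derivative]
  have h4 := congrArg m h2
  have h5 := congrArg m h3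
  simp only [map_sub, map_add, map_mul, map_pow, hX, hd, map_ofNat] at h4 h5
  have hcc : ∀ V : PowerSeries ℤ, PowerSeries.constantCoeff (m V) =
      ((PowerSeries.constantCoeff V : ℤ) : ZMod p) := by
    intro V
    rw [← PowerSeries.coeff_zero_eq_constantCoeff_apply, ← PowerSeries.coeff_zero_eq_constantCoeff_apply,
      hm, PowerSeries.coeff_map]
    simp
  have h6 := hasse p hp2 (m P) (m Ξ) (m σ)
    (by rw [hcc, cΞ]; simp)
    (by rw [hcc, cσ]; simp)
    h4 h5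
  rw [← h6, hm, PowerSeries.coeff_map]
  simp

end Pool.Agent.Run7.h741.MG
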