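import Pool.Agent.Run7.h741.MG.AL
import Pool.Agent.W97.MT.Cusps

/-!
Behaviour of the functions at the cusps of `X_0(21)`.
-/

set_option autoImplicit false

open Filter Topology

namespace Pool.Agent.Run7.h741.MG

open Pool.Agent.W97.TW
open Pool.Agent.W97.MT (qq tt tt_ne qq_ne tt_pow norm_qq norm_qq_lt eta_mul eta_one G_mul Q_ne
  Q_ne_pow G_ne im_mul z_ne H_open eta_diff QV QV_Q QV_Q1 QV_of_sq Q_contOn Q_contOn1 qq_cont
  comp_cont iI iI_pos)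

lemma eta_diffs {z : ℂ} (hz : 0 < z.im) : DifferentiableAt ℂ (fun w : ℂ => ModularForm.eta w) z ∧
    DifferentiableAt ℂ (fun w : ℂ => ModularForm.eta (3 * w)) z ∧
    DifferentiableAt ℂ (fun w : ℂ => ModularForm.eta (7 * w)) z ∧
    DifferentiableAt ℂ (fun w : ℂ => ModularForm.eta (21 * w)) z := by
  have h1 := eta_diff hz 1 one_pos
  have h3 := eta_diff hz 3 (by norm_num)
  have h7 := eta_diff hz 7 (by norm_num)
  have h21 := eta_diff hz 21 (by norm_num)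
  push_cast at h1 h3 h7 h21
  simp only [one_mul] at h1
  exact ⟨h1, h3, h7, h21⟩

lemma eta_nes {z : ℂ} (hz : 0 < z.im) : ModularForm.eta z ≠ 0 ∧ ModularForm.eta (3 * z) ≠ 0 ∧
    ModularForm.eta (7 * z) ≠ 0 ∧ ModularForm.eta (21 * z) ≠ 0 :=
  ⟨ModularForm.eta_ne_zero hz, ModularForm.eta_ne_zero (im_mul hz 3 (by norm_num)),
    ModularForm.eta_ne_zero (im_mul hz 7 (by norm_num)),
    ModularForm.eta_ne_zero (im_mul hz 21 (by norm_num))⟩

lemma X1_ne {z : ℂ} (hz : 0 < z.im) : X1 z ≠ 0 := by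
  obtain ⟨n1, n3, n7, n21⟩ := eta_nes hz
  unfold X1
  positivity

lemma X1_diff {z : ℂ} (hz : 0 < z.im) : DifferentiableAt ℂ X1 z := by
  obtain ⟨e1, e3, e7, e21⟩ := eta_diffs hz
  obtain ⟨n1, n3, n7, n21⟩ := eta_nes hz
  exact (((e1.inv n1).mul (e3.pow 3)).mul e7).mul ((e21.pow 3).inv (pow_ne_zero _ n21))

lemma V1_diff {z : ℂ} (hz : 0 < z.im) : DifferentiableAt ℂ V1 z := by
  obtain ⟨e1, e3, e7, e21⟩ := eta_diffs hz
  obtain ⟨n1, n3, n7, n21⟩ := eta_nes hz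
  exact ((e1.pow 2).mul (e7.pow 4)).mul ((e21.pow 6).inv (pow_ne_zero _ n21))

/-- the data at a cusp -/
structure IsCusp (m j : ℂ → ℂ) (x y : ℂ) : Prop where
  pos : ∀ z : ℂ, 0 < z.im → 0 < (m z).im
  der : ∀ z : ℂ, 0 < z.im → HasDerivAt m (j z) z
  jne : ∀ z : ℂ, 0 < z.im → j z ≠ 0
  jcont : ContinuousOn j {z : ℂ | 0 < z.im}
  X : QV (fun z => X1 (m z)) x
  V : QV (fun z => V1 (m z)) y

lemma X1_cont : ContinuousOn X1 {z : ℂ | 0 < z.im} := fun _ hz =>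
  (X1_diff hz).continuousAt.continuousWithinAt

lemma V1_cont : ContinuousOn V1 {z : ℂ | 0 < z.im} := fun _ hz =>
  (V1_diff hz).continuousAt.continuousWithinAt

/-- `z ↦ -1/(21z)` -/
noncomputable def m21 (z : ℂ) : ℂ := -1 / (21 * z)

/-- `z ↦ (7z+2)/(21z+7)` -/
noncomputable def m7 (z : ℂ) : ℂ := (7 * z + 2) / (21 * z + 7)

/-- `z ↦ (3z-1)/(21z-6)` -/
noncomputable def m3 (z : ℂ) : ℂ := (3 * z - 1) / (21 * z - 6)

/-- derivative of `m21` -/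
noncomputable def j21 (z : ℂ) : ℂ := (21 * z ^ 2)⁻¹

/-- derivative of `m7` -/
noncomputable def j7 (z : ℂ) : ℂ := (7 * (3 * z + 1) ^ 2)⁻¹

/-- derivative of `m3` -/
noncomputable def j3 (z : ℂ) : ℂ := (3 * (7 * z - 2) ^ 2)⁻¹

lemma Q_nes {z : ℂ} (hz : 0 < z.im) : Q (qq z) ≠ 0 ∧ Q (qq z ^ 3) ≠ 0 ∧ Q (qq z ^ 7) ≠ 0 ∧
    Q (qq z ^ 21) ≠ 0 :=
  ⟨Q_ne (norm_qq_lt hz), Q_ne_pow (norm_qq_lt hz) (by norm_num),
    Q_ne_pow (norm_qq_lt hz) (by norm_num), Q_ne_pow (norm_qq_lt hz) (by norm_num)⟩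

lemma cusp21_core : (∀ z : ℂ, 0 < z.im → 0 < (m21 z).im) ∧
    (∀ z : ℂ, 0 < z.im → HasDerivAt m21 (j21 z) z) ∧
    (∀ z : ℂ, 0 < z.im → j21 z ≠ 0) ∧ ContinuousOn j21 {z : ℂ | 0 < z.im} ∧
    QV (fun z => V1 (m21 z)) 0 := by
  refine ⟨fun z hz => w21_pos hz, fun z hz => ?_, fun z hz => ?_, ?_, ?_⟩
  · have h0 := z_ne hz
    have h1 : HasDerivAt (fun w : ℂ => 21 * w) 21 z := by
      simpa using (hasDerivAt_id z).const_mul (21 : ℂ)
    have h2 := (hasDerivAt_const z (-1 : ℂ)).div h1 (mul_ne_zero (by norm_num) h0)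
    unfold m21 j21
    refine h2.congr_deriv ?_
    field_simp
    ring
  · have h0 := z_ne hz
    exact inv_ne_zero (mul_ne_zero (by norm_num) (pow_ne_zero 2 h0))
  · intro z hz
    have h0 := z_ne hz
    unfold j21
    exact ContinuousAt.continuousWithinAt (ContinuousAt.inv₀ (by fun_prop)
      (mul_ne_zero (by norm_num) (pow_ne_zero 2 h0)))
  · have q3 := QV_Q 3 (by norm_num)
    have q21 := QV_Q 21 (by norm_num)
    have h := ((QV.qq'.pow 2).mul ((QV.const 189).mul (((((QV_Q1.pow 3).inv (by norm_num)).mul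
      (q3.pow 2)).mul q21).pow 2))).of_val (show _ = (0 : ℂ) by norm_num)
    refine h.of_eq (iI_pos.mono fun z hz => ?_)
    exact V1_w21 hz

lemma cusp21 : IsCusp m21 j21 7 0 ∨ IsCusp m21 j21 (-7) 0 := by
  obtain ⟨h1, h2, h3, h4, h6⟩ := cusp21_core
  have q3 := QV_Q 3 (by norm_num)
  have q7 := QV_Q 7 (by norm_num)
  have q21 := QV_Q 21 (by norm_num)
  have h := ((QV.const 7).mul (((((QV_Q1.pow 3).inv (by norm_num)).mul q3).mul (q7.pow 3)).mul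
      (q21.inv one_ne_zero))).of_val (show _ = (7 : ℂ) by norm_num)
  have c1 := Q_contOn1
  have c3 := Q_contOn 3 (by norm_num)
  have c7 := Q_contOn 7 (by norm_num)
  have c21 := Q_contOn 21 (by norm_num)
  have e : ∀ z : ℂ, 0 < z.im → X1 (m21 z) ^ 2 = (7 * ((Q (qq z) ^ 3)⁻¹ * Q (qq z ^ 3) *
      Q (qq z ^ 7) ^ 3 * (Q (qq z ^ 21))⁻¹)) ^ 2 := fun z hz => by
    rw [mul_pow]
    have := X1_w21 hz
    unfold m21
    rw [this]
    norm_num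
  have e0 : ∀ z : ℂ, 0 < z.im → 7 * ((Q (qq z) ^ 3)⁻¹ * Q (qq z ^ 3) *
      Q (qq z ^ 7) ^ 3 * (Q (qq z ^ 21))⁻¹) ≠ 0 := fun z hz => by
    obtain ⟨n1, n3, n7, n21⟩ := Q_nes hz
    exact mul_ne_zero (by norm_num) (by positivity)
  have c : ContinuousOn (fun z => 7 * ((Q (qq z) ^ 3)⁻¹ * Q (qq z ^ 3) *
      Q (qq z ^ 7) ^ 3 * (Q (qq z ^ 21))⁻¹)) {z : ℂ | 0 < z.im} :=
    continuousOn_const.mul (((((c1.pow 3).inv₀ fun z hz => pow_ne_zero _ (Q_nes hz).1).mul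
      c3).mul (c7.pow 3)).mul (c21.inv₀ fun z hz => (Q_nes hz).2.2.2))
  rcases QV_of_sq (comp_cont h1 h2 X1_cont) c e e0 h with h7 | h7
  · exact Or.inl ⟨h1, h2, h3, h4, h7, h6⟩
  · exact Or.inr ⟨h1, h2, h3, h4, h7, h6⟩

lemma cusp7 : IsCusp m7 j7 0 (-7) := by
  have hne : ∀ z : ℂ, 0 < z.im → (7 : ℂ) * (3 * z + 1) ^ 2 ≠ 0 := fun z hz =>
    mul_ne_zero (by norm_num) (pow_ne_zero 2 (w7_aux hz))
  have hpos : ∀ z : ℂ, 0 < z.im → 0 < (m7 z).im := fun z hz => w7_pos hz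
  have hder : ∀ z : ℂ, 0 < z.im → HasDerivAt m7 (j7 z) z := fun z hz => by
    have h0 := w7_aux hz
    have h7 : (21 * z + 7 : ℂ) = 7 * (3 * z + 1) := by ring
    have h1 : HasDerivAt (fun w : ℂ => 21 * w + 7) 21 z := by
      simpa using ((hasDerivAt_id z).const_mul (21 : ℂ)).add_const 7
    have h1' : HasDerivAt (fun w : ℂ => 7 * w + 2) 7 z := by
      simpa using ((hasDerivAt_id z).const_mul (7 : ℂ)).add_const 2
    have h2 := h1'.div h1 (by rw [h7]; exact mul_ne_zero (by norm_num) h0)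
    unfold m7 j7
    refine h2.congr_deriv ?_
    rw [h7]
    field_simp
    ring
  refine ⟨hpos, hder, fun z hz => inv_ne_zero (hne z hz), ?_, ?_, ?_⟩
  · intro z hz
    unfold j7
    exact ContinuousAt.continuousWithinAt (ContinuousAt.inv₀ (by fun_prop) (hne z hz))
  · have q3 := QV_Q 3 (by norm_num)
    have q7 := QV_Q 7 (by norm_num)
    have q21 := QV_Q 21 (by norm_num)
    have h := ((QV.qq'.pow 2).mul ((QV.const 7).mul (((QV_Q1.mul ((q3.pow 3).inv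
      (by norm_num))).mul (q7.inv one_ne_zero)).mul (q21.pow 3)))).of_val
        (show _ = (0 : ℂ) by norm_num)
    have c1 := Q_contOn1
    have c3 := Q_contOn 3 (by norm_num)
    have c7 := Q_contOn 7 (by norm_num)
    have c21 := Q_contOn 21 (by norm_num)
    have e : ∀ z : ℂ, 0 < z.im → X1 (m7 z) ^ 2 = (qq z ^ 2 * (7 * (Q (qq z) *
        (Q (qq z ^ 3) ^ 3)⁻¹ * (Q (qq z ^ 7))⁻¹ * (Q (qq z ^ 21)) ^ 3))) ^ 2 := fun z hz => by
      have := X1_w7 hz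
      unfold m7
      rw [this]
      ring
    have e0 : ∀ z : ℂ, 0 < z.im → qq z ^ 2 * (7 * (Q (qq z) *
        (Q (qq z ^ 3) ^ 3)⁻¹ * (Q (qq z ^ 7))⁻¹ * (Q (qq z ^ 21)) ^ 3)) ≠ 0 := fun z hz => by
      obtain ⟨n1, n3, n7, n21⟩ := Q_nes hz
      exact mul_ne_zero (pow_ne_zero 2 (qq_ne z)) (mul_ne_zero (by norm_num) (by positivity))
    have c : ContinuousOn (fun z => qq z ^ 2 * (7 * (Q (qq z) *
        (Q (qq z ^ 3) ^ 3)⁻¹ * (Q (qq z ^ 7))⁻¹ * (Q (qq z ^ 21)) ^ 3))) {z : ℂ | 0 < z.im} :=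
      (qq_cont.continuousOn.pow 2).mul (continuousOn_const.mul (((c1.mul
        ((c3.pow 3).inv₀ fun z hz => pow_ne_zero _ (Q_nes hz).2.1)).mul
        (c7.inv₀ fun z hz => (Q_nes hz).2.2.1)).mul (c21.pow 3)))
    rcases QV_of_sq (comp_cont hpos hder X1_cont) c e e0 h with h7 | h7
    · exact h7
    · exact h7.of_val (by norm_num)
  · have q3 := QV_Q 3 (by norm_num)
    have q7 := QV_Q 7 (by norm_num)
    have h := ((QV.const (-7)).mul ((((QV_Q1.pow 2).mul ((q3.pow 3).inv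
      (by norm_num))).mul q7).pow 2)).of_val (show _ = (-7 : ℂ) by norm_num)
    refine h.of_eq (iI_pos.mono fun z hz => ?_)
    exact V1_w7 hz

lemma cusp3_core : (∀ z : ℂ, 0 < z.im → 0 < (m3 z).im) ∧
    (∀ z : ℂ, 0 < z.im → HasDerivAt m3 (j3 z) z) ∧
    (∀ z : ℂ, 0 < z.im → j3 z ≠ 0) ∧ ContinuousOn j3 {z : ℂ | 0 < z.im} ∧
    QV (fun z => V1 (m3 z)) 0 := by
  have hne : ∀ z : ℂ, 0 < z.im → (3 : ℂ) * (7 * z - 2) ^ 2 ≠ 0 := fun z hz =>
    mul_ne_zero (by norm_num) (pow_ne_zero 2 (w3_aux hz))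
  refine ⟨fun z hz => w3_pos hz, fun z hz => ?_, fun z hz => inv_ne_zero (hne z hz), ?_, ?_⟩
  · have h0 := w3_aux hz
    have h7 : (21 * z - 6 : ℂ) = 3 * (7 * z - 2) := by ring
    have h1 : HasDerivAt (fun w : ℂ => 21 * w - 6) 21 z := by
      simpa using ((hasDerivAt_id z).const_mul (21 : ℂ)).sub_const 6
    have h1' : HasDerivAt (fun w : ℂ => 3 * w - 1) 3 z := by
      simpa using ((hasDerivAt_id z).const_mul (3 : ℂ)).sub_const 1
    have h2 := h1'.div h1 (by rw [h7]; exact mul_ne_zero (by norm_num) h0)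
    unfold m3 j3
    refine h2.congr_deriv ?_
    rw [h7]
    field_simp
    ring
  · intro z hz
    unfold j3
    exact ContinuousAt.continuousWithinAt (ContinuousAt.inv₀ (by fun_prop) (hne z hz))
  · have q3 := QV_Q 3 (by norm_num)
    have q7 := QV_Q 7 (by norm_num)
    have q21 := QV_Q 21 (by norm_num)
    have h := ((QV.qq'.pow 2).mul ((QV.const (-27)).mul (((q3.mul ((q7.pow 3).inv
      (by norm_num))).mul (q21.pow 2)).pow 2))).of_val (show _ = (0 : ℂ) by norm_num)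
    refine h.of_eq (iI_pos.mono fun z hz => ?_)
    exact V1_w3 hz

lemma cusp3 : IsCusp m3 j3 1 0 ∨ IsCusp m3 j3 (-1) 0 := by
  obtain ⟨h1, h2, h3, h4, h6⟩ := cusp3_core
  have q3 := QV_Q 3 (by norm_num)
  have q7 := QV_Q 7 (by norm_num)
  have q21 := QV_Q 21 (by norm_num)
  have h := ((((QV_Q1.pow 3).mul (q3.inv one_ne_zero)).mul ((q7.pow 3).inv (by norm_num))).mul
      q21).of_val (show _ = (1 : ℂ) by norm_num)
  have c1 := Q_contOn1
  have c3 := Q_contOn 3 (by norm_num)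
  have c7 := Q_contOn 7 (by norm_num)
  have c21 := Q_contOn 21 (by norm_num)
  have e : ∀ z : ℂ, 0 < z.im → X1 (m3 z) ^ 2 = (Q (qq z) ^ 3 * (Q (qq z ^ 3))⁻¹ *
    (Q (qq z ^ 7) ^ 3)⁻¹ * (Q (qq z ^ 21))) ^ 2 := fun z hz => X1_w3 hz
  have e0 : ∀ z : ℂ, 0 < z.im → (Q (qq z) ^ 3 * (Q (qq z ^ 3))⁻¹ *
    (Q (qq z ^ 7) ^ 3)⁻¹ * (Q (qq z ^ 21))) ≠ 0 := fun z hz => by
    obtain ⟨n1, n3, n7, n21⟩ := Q_nes hz
    positivity
  have c : ContinuousOn (fun z => Q (qq z) ^ 3 * (Q (qq z ^ 3))⁻¹ *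
    (Q (qq z ^ 7) ^ 3)⁻¹ * (Q (qq z ^ 21))) {z : ℂ | 0 < z.im} :=
    ((((c1.pow 3).mul (c3.inv₀ fun z hz => (Q_nes hz).2.1)).mul
      ((c7.pow 3).inv₀ fun z hz => pow_ne_zero _ (Q_nes hz).2.2.1)).mul c21)
  rcases QV_of_sq (comp_cont h1 h2 X1_cont) c e e0 h with h7 | h7
  · exact Or.inl ⟨h1, h2, h3, h4, h7, h6⟩
  · exact Or.inr ⟨h1, h2, h3, h4, h7, h6⟩

end Pool.Agent.Run7.h741.MG
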