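import Pool.Agent.Run7.h741.MG.FF
import Pool.Agent.Run7.h741.MF.Asm0
import Pool.Agent.Run7.h209.P15.CpGen
import Pool.Agent.Run7.h209.P15.E21

/-!
The form as a function on the unit disc, and its primitive.
-/

set_option autoImplicit false

open Filter Topology MeasureTheory Set

namespace Pool.Agent.Run7.h741.MG

open Pool.Agent.W97.TW
open Pool.Agent.W97.MT (qq tt tt_ne qq_ne tt_pow norm_qq norm_qq_lt eta_mul eta_one G_mul Q_ne
  Q_ne_pow G_ne im_mul z_ne H_open eta_diff QV QV_Q QV_Q1 QV_of_sq Q_contOn Q_contOn1 qq_cont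
  comp_cont iI iI_pos S_QEXP RepC QV_zero_of_dvd mul_zero_or Qq_analytic hasDerivAt_qq tpi_ne
  eq_or_eq_neg iI_eventually tendsto_qq exists_qq const_of_deriv line_im line_re qParam_one)
open Pool.Agent.Run7.h741.MF (hqe)

/-- the constant principle -/
lemma hcp : S_CP := by
  intro g hd hinv h1 h2 h3 h4
  refine Run7.h209.P15.cp_gen 3 7 (by norm_num) (by norm_num) (by norm_num) (-2) 1 g hd ?_ h1 ?_ ?_ ?_
  · intro a b c d h z hz
    have e := hinv a b c d (by push_cast at h; linarith) z hz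
    push_cast
    rw [show (3 : ℂ) * 7 * c * z = 21 * c * z by ring]
    exact e
  · obtain ⟨B, T, hT, h⟩ := h2
    refine ⟨B, T, hT, fun z hz => ?_⟩
    push_cast
    rw [show (3 : ℂ) * 7 * z = 21 * z by ring]
    exact h z hz
  · obtain ⟨B, T, hT, h⟩ := h3
    refine ⟨B, T, hT, fun z hz => ?_⟩
    push_cast
    rw [show ((7 : ℂ) * z - -2) / (3 * 7 * z - (3 * -2 - 1)) = (7 * z + 2) / (21 * z + 7) by
      congr 1 <;> ring]
    exact h z hz
  · obtain ⟨B, T, hT, h⟩ := h4
    refine ⟨B, T, hT, fun z hz => ?_⟩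
    push_cast
    rw [show ((3 : ℂ) * z - 1) / (3 * 7 * z - (7 * 1 - 1)) = (3 * z - 1) / (21 * z - 6) by
      congr 1 <;> ring]
    exact h z hz

/-- the form, cut off outside the upper half-plane -/
noncomputable def fT (z : ℂ) : ℂ := if 0 < z.im then ff z else 0

lemma fT_eq {z : ℂ} (hz : 0 < z.im) : fT z = ff z := if_pos hz

lemma fT_periodic : Function.Periodic fT ((1 : ℝ) : ℂ) := by
  intro z
  unfold fT
  have e : (z + ((1 : ℝ) : ℂ)).im = z.im := by simp
  rw [e]
  split_ifs with h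
  · have := ff_add_one hcp hqe h
    rw [Complex.ofReal_one]
    exact this
  · rfl

lemma fT_diff {z : ℂ} (hz : 0 < z.im) : DifferentiableAt ℂ fT z :=
  (ff_diff hz).congr_of_eventuallyEq (by
    filter_upwards [H_open.mem_nhds hz] with w hw
    exact fT_eq hw)

/-- the form as a function on the disc -/
noncomputable def gD : ℂ → ℂ := Function.Periodic.cuspFunction 1 fT

lemma gD_qq {z : ℂ} (hz : 0 < z.im) : gD (qq z) = ff z := by
  have h := Function.Periodic.eq_cuspFunction one_ne_zero fT_periodic z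
  rw [qParam_one, fT_eq hz] at h
  exact h

lemma ff_tendsto : Tendsto ff iI (𝓝 0) := by
  obtain ⟨k, ak, k0, h⟩ := near_q hcp hqe
  have h1 : Tendsto (fun z => qq z * k (qq z)) iI (𝓝 (0 * k 0)) :=
    tendsto_qq.mul (ak.continuousAt.tendsto.comp tendsto_qq)
  rw [zero_mul] at h1
  exact h1.congr' (h.mono fun z hz => hz.symm)

lemma fT_tendsto : Tendsto fT iI (𝓝 0) :=
  ff_tendsto.congr' (iI_pos.mono fun z hz => (fT_eq hz).symm)

lemma gD_zero : gD 0 = 0 :=
  Function.Periodic.cuspFunction_zero_of_zero_at_inf one_pos fT_tendsto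

lemma gD_diff {q : ℂ} (hq : ‖q‖ < 1) : DifferentiableAt ℂ gD q := by
  by_cases h0 : q = 0
  · rw [h0]
    refine Function.Periodic.differentiableAt_cuspFunction_zero one_pos fT_periodic ?_ ?_
    · exact iI_pos.mono fun z hz => fT_diff hz
    · exact fT_tendsto.isBigO_one ℝ
  · obtain ⟨z, hz, rfl⟩ := exists_qq hq h0
    have h := Function.Periodic.differentiableAt_cuspFunction one_ne_zero fT_periodic (fT_diff hz)
    rw [qParam_one] at h
    exact h

/-- the expansion of the form is `q phi(q)` -/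
noncomputable def phi (q : ℂ) : ℂ := dslope gD 0 q

lemma gD_eq (q : ℂ) : gD q = q * phi q := by
  unfold phi
  by_cases hq : q = 0
  · rw [hq, gD_zero, zero_mul]
  · rw [dslope_of_ne _ hq, slope_def_field, gD_zero, sub_zero, sub_zero]
    field_simp

lemma gD_diffOn : DifferentiableOn ℂ gD (Metric.ball 0 1) := fun q hq =>
  (gD_diff (by simpa using hq)).differentiableWithinAt

lemma phi_diff : DifferentiableOn ℂ phi (Metric.ball 0 1) :=
  (Complex.differentiableOn_dslope (Metric.ball_mem_nhds 0 one_pos)).2 gD_diffOn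

lemma phi_analytic : AnalyticAt ℂ phi 0 := phi_diff.analyticAt (Metric.ball_mem_nhds _ one_pos)

lemma ff_q {z : ℂ} (hz : 0 < z.im) : ff z = qq z * phi (qq z) := by
  rw [← gD_qq hz, gD_eq]

lemma phi_zero : phi 0 = 1 := by
  obtain ⟨k, ak, k0, h⟩ := near_q hcp hqe
  have h1 : QV (fun z => phi (qq z)) (phi 0) := QV.comp phi_analytic
  have h2 : QV (fun z => k (qq z)) (k 0) := QV.comp ak
  rw [← k0]
  refine h1.val_unique (h2.of_eq ?_)
  filter_upwards [h, iI_pos] with z hz hp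
  rw [ff_q hp] at hz
  exact mul_left_cancel₀ (qq_ne z) hz

lemma exists_Phi : ∃ Φ : ℂ → ℂ, Φ 0 = 0 ∧ ∀ q : ℂ, ‖q‖ < 1 → HasDerivAt Φ (phi q) q := by
  obtain ⟨g, h0, hg⟩ := phi_diff.isExactOn_ball.with_val_at 0 0
  exact ⟨g, h0, fun q hq => hg q (by simpa using hq)⟩

/-- the primitive of `phi` -/
noncomputable def Phi : ℂ → ℂ := exists_Phi.choose

lemma Phi_zero : Phi 0 = 0 := exists_Phi.choose_spec.1

lemma Phi_deriv {q : ℂ} (hq : ‖q‖ < 1) : HasDerivAt Phi (phi q) q := exists_Phi.choose_spec.2 q hq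

lemma Phi_diff : DifferentiableOn ℂ Phi (Metric.ball 0 1) := fun q hq =>
  (Phi_deriv (by simpa using hq)).differentiableAt.differentiableWithinAt

lemma Phi_analytic : AnalyticAt ℂ Phi 0 := Phi_diff.analyticAt (Metric.ball_mem_nhds _ one_pos)

/-- the primitive of `2πi ff` -/
noncomputable def F (z : ℂ) : ℂ := Phi (qq z)

lemma F_deriv {z : ℂ} (hz : 0 < z.im) : HasDerivAt F (2 * Real.pi * Complex.I * ff z) z := by
  refine ((Phi_deriv (norm_qq_lt hz)).comp z (hasDerivAt_qq z)).congr_deriv ?_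
  rw [ff_q hz]; ring

lemma F_QV : QV F 0 := (QV.comp Phi_analytic).of_val Phi_zero

lemma F_diff {z : ℂ} (hz : 0 < z.im) : DifferentiableAt ℂ F z := (F_deriv hz).differentiableAt

/-- the form does not vanish near infinity -/
lemma ff_ne : ∃ z : ℂ, 0 < z.im ∧ ff z ≠ 0 := by
  have h1 : Tendsto (fun z => phi (qq z)) iI (𝓝 (phi 0)) :=
    phi_analytic.continuousAt.tendsto.comp tendsto_qq
  rw [phi_zero] at h1
  have h2 : ∀ᶠ z in iI, phi (qq z) ≠ 0 := h1.eventually_ne one_ne_zero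
  obtain ⟨T, hT, h3⟩ := iI_eventually.1 (h2.and iI_pos)
  have h4 : T < (((T + 1 : ℝ) : ℂ) * Complex.I).im := by simp
  obtain ⟨h5, h6⟩ := h3 _ h4
  refine ⟨_, h6, ?_⟩
  rw [ff_q h6]
  exact mul_ne_zero (qq_ne _) h5

lemma idMap : IsMap (fun z => z) (fun _ => 1) where
  pos := fun _ h => h
  der := fun z _ => hasDerivAt_id z
  jne := fun _ _ => one_ne_zero
  jcont := continuousOn_const
  ffk := ⟨phi, phi_analytic, iI_pos.mono fun z hz => by rw [mul_one, ff_q hz]⟩

/-- the primitive at a cusp -/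
lemma IsMap.const {m j : ℂ → ℂ} (h : IsMap m j) : ∃ (C : ℂ) (Ψ : ℂ → ℂ), AnalyticAt ℂ Ψ 0 ∧
    Ψ 0 = 0 ∧ ∀ᶠ z in iI, F (m z) = C + Ψ (qq z) := by
  obtain ⟨k, ak, hk⟩ := h.ffk
  -- a local primitive
  obtain ⟨U, hU, hU'⟩ := ak.exists_mem_nhds_analyticOnNhd
  obtain ⟨ε, hε, hball⟩ := Metric.mem_nhds_iff.1 hU
  have hd : DifferentiableOn ℂ k (Metric.ball 0 ε) := fun q hq =>
    (hU' q (hball hq)).differentiableAt.differentiableWithinAt
  obtain ⟨Ψ, h0, hΨ⟩ := hd.isExactOn_ball.with_val_at 0 0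
  have aΨ : AnalyticAt ℂ Ψ 0 := by
    have : DifferentiableOn ℂ Ψ (Metric.ball 0 ε) := fun q hq =>
      (hΨ q hq).differentiableAt.differentiableWithinAt
    exact this.analyticAt (Metric.ball_mem_nhds _ hε)
  have e1 : ∀ᶠ z in iI, qq z ∈ Metric.ball (0 : ℂ) ε :=
    tendsto_qq.eventually (Metric.ball_mem_nhds _ hε)
  obtain ⟨T, hT, hall⟩ := iI_eventually.1 ((hk.and e1).and iI_pos)
  have hopen : IsOpen {z : ℂ | T < z.im} := isOpen_lt continuous_const Complex.continuous_im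
  have hder : ∀ z : ℂ, T < z.im → HasDerivAt (fun z => F (m z) - Ψ (qq z)) 0 z := by
    intro z hz
    obtain ⟨⟨h1, h2⟩, h3⟩ := hall z hz
    have d1 := (F_deriv (h.pos z h3)).comp z (h.der z h3)
    have d2 := (hΨ _ h2).comp z (hasDerivAt_qq z)
    refine (d1.sub d2).congr_deriv ?_
    linear_combination (2 * Real.pi * Complex.I) * h1
  set z0 : ℂ := ((T + 1 : ℝ) : ℂ) * Complex.I with hz0
  have hz0' : T < z0.im := by rw [hz0]; simp
  refine ⟨F (m z0) - Ψ (qq z0), Ψ, aΨ, h0, ?_⟩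
  refine iI_eventually.2 ⟨T, hT, fun z hz => ?_⟩
  have hc := hopen.is_const_of_deriv_eq_zero (convex_halfSpace_im_gt T).isPreconnected
    (fun w hw => (hder w hw).differentiableAt.differentiableWithinAt)
    (fun w hw => (hder w hw).deriv) hz hz0'
  linear_combination hc

/-- the additive constants for `Γ_0(21)` -/
lemma F_gamma {a b c d : ℤ} (h : a * d - b * (21 * c) = 1) :
    ∃ p : ℂ, ∀ z : ℂ, 0 < z.im → F ((a * z + b) / (21 * c * z + d)) = F z + p := by
  obtain ⟨C, hC⟩ := const_of_deriv (g := fun z => F ((a * z + b) / (21 * c * z + d)) - F z)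
    fun z hz => by
      have h2 := ((F_deriv (G_gamma h hz).1).comp z (hasDerivAt_gamma h hz)).sub (F_deriv hz)
      refine h2.congr_deriv ?_
      have h0 := (G_gamma h hz).2.1
      rw [ff_gamma hcp hqe h z hz]
      field_simp
      ring
  exact ⟨C, fun z hz => by linear_combination hC z hz⟩

end Pool.Agent.Run7.h741.MG
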