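import Pool.Agent.Run7.h741.MG.Ident
import Pool.Agent.W97.MT.Prim
import Pool.Agent.W97.MT.Lat

/-!
The form of weight two: `2πi f R = X'`.
-/

set_option autoImplicit false

open Filter Topology

namespace Pool.Agent.Run7.h741.MG

open Pool.Agent.W97.TW
open Pool.Agent.W97.MT (qq tt tt_ne qq_ne tt_pow norm_qq norm_qq_lt eta_mul eta_one G_mul Q_ne
  Q_ne_pow G_ne im_mul z_ne H_open eta_diff QV QV_Q QV_Q1 QV_of_sq Q_contOn Q_contOn1 qq_cont
  comp_cont iI iI_pos S_QEXP RepC QV_zero_of_dvd mul_zero_or Qq_analytic hasDerivAt_qq tpi_ne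
  eq_or_eq_neg iI_eventually tendsto_qq exists_qq)

/-- the newform of level `21` as a function on the upper half-plane -/
noncomputable def ff (z : ℂ) : ℂ :=
  ((2507 / 15876 - 193 / 2646 * X1 z) * RR z * deriv X1 z +
    2 * (1 / 28 - 3151 / 31752 * X1 z + 193 / 7938 * X1 z ^ 2) * deriv RR z) /
    (2 * Real.pi * Complex.I)

lemma dX_diff {z : ℂ} (hz : 0 < z.im) : DifferentiableAt ℂ (deriv X1) z := by
  have h1 : DifferentiableOn ℂ X1 {z : ℂ | 0 < z.im} := fun w hw =>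
    (X1_diff hw).differentiableWithinAt
  exact (h1.deriv H_open).differentiableAt (H_open.mem_nhds hz)

lemma dR_diff {z : ℂ} (hz : 0 < z.im) : DifferentiableAt ℂ (deriv RR) z := by
  have h1 : DifferentiableOn ℂ RR {z : ℂ | 0 < z.im} := fun w hw =>
    (RR_diff hw).differentiableWithinAt
  exact (h1.deriv H_open).differentiableAt (H_open.mem_nhds hz)

lemma ff_diff {z : ℂ} (hz : 0 < z.im) : DifferentiableAt ℂ ff z := by
  have h1 := X1_diff hz
  have h2 := RR_diff hz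
  have h3 := dX_diff hz
  have h4 := dR_diff hz
  unfold ff
  fun_prop

lemma ff_cont : ContinuousOn ff {z : ℂ | 0 < z.im} := fun _ hz =>
  (ff_diff hz).continuousAt.continuousWithinAt

/-- the differential relation -/
lemma dRR (hcp : S_CP) (hq : S_QEXP) {z : ℂ} (hz : 0 < z.im) :
    2 * RR z * deriv RR z = (12 * X1 z ^ 2 - 46 * X1 z + 28) * deriv X1 z := by
  have h1 := ((RR_diff hz).hasDerivAt.pow 2)
  have h2 := (((((X1_diff hz).hasDerivAt.pow 3).const_mul 4).sub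
    (((X1_diff hz).hasDerivAt.pow 2).const_mul 23)).add ((X1_diff hz).hasDerivAt.const_mul 28))
  have h3 : (fun z => RR z ^ 2) =ᶠ[𝓝 z] fun z => 4 * X1 z ^ 3 - 23 * X1 z ^ 2 + 28 * X1 z := by
    filter_upwards [H_open.mem_nhds hz] with w hw
    exact RR_sq hcp hq hw
  have h4 := (HasDerivAt.congr_of_eventuallyEq h2 h3).unique h1
  push_cast at h4
  norm_num at h4
  linear_combination -h4

lemma ff_mul_R (hcp : S_CP) (hq : S_QEXP) {z : ℂ} (hz : 0 < z.im) :
    2 * Real.pi * Complex.I * ff z * RR z = deriv X1 z := by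
  have h1 := RR_sq hcp hq hz
  have h2 := dRR hcp hq hz
  have h3 := tpi_ne
  unfold ff
  rw [mul_div_cancel₀ _ h3]
  linear_combination ((2507 / 15876 - 193 / 2646 * X1 z) * deriv X1 z) * h1 +
    (1 / 28 - 3151 / 31752 * X1 z + 193 / 7938 * X1 z ^ 2) * h2

lemma ff_mul_D (hcp : S_CP) (hq : S_QEXP) {z : ℂ} (hz : 0 < z.im) :
    2 * Real.pi * Complex.I * ff z * (12 * X1 z ^ 2 - 46 * X1 z + 28) = 2 * deriv RR z := by
  have h1 := RR_sq hcp hq hz
  have h2 := dRR hcp hq hz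
  have h3 := tpi_ne
  unfold ff
  rw [mul_div_cancel₀ _ h3]
  linear_combination (-(2507 / 15876 - 193 / 2646 * X1 z) * RR z) * h2 +
    (2 * (2507 / 15876 - 193 / 2646 * X1 z) * deriv RR z) * h1

/-- weight two -/
theorem ff_gamma (hcp : S_CP) (hq : S_QEXP) {a b c d : ℤ} (h : a * d - b * (21 * c) = 1) :
    ∀ z : ℂ, 0 < z.im → ff ((a * z + b) / (21 * c * z + d)) = (21 * c * z + d) ^ 2 * ff z := by
  intro z hz
  have h1 := X1_inv hcp hq a b c d h z hz
  have h2 := RR_inv a b c d h z hz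
  have h3 := deriv_gamma (X1_inv hcp hq) (fun z hz => X1_diff hz) h hz
  have h4 := deriv_gamma RR_inv (fun z hz => RR_diff hz) h hz
  unfold ff
  rw [h1, h2, h3, h4]
  ring

/-- a change of variable under which the form has an expansion -/
structure IsMap (m j : ℂ → ℂ) : Prop where
  pos : ∀ z : ℂ, 0 < z.im → 0 < (m z).im
  der : ∀ z : ℂ, 0 < z.im → HasDerivAt m (j z) z
  jne : ∀ z : ℂ, 0 < z.im → j z ≠ 0
  jcont : ContinuousOn j {z : ℂ | 0 < z.im}
  ffk : ∃ k : ℂ → ℂ, AnalyticAt ℂ k 0 ∧ ∀ᶠ z in iI, ff (m z) * j z = qq z * k (qq z)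

lemma IsCusp.map {m j : ℂ → ℂ} {x y : ℂ} (h : IsCusp m j x y) : IsMap m j := by
  refine ⟨h.pos, h.der, h.jne, h.jcont, ?_⟩
  obtain ⟨kX, hkX, dX⟩ := h.X.deriv'
  obtain ⟨kR, hkR, dR⟩ := h.R.deriv'
  obtain ⟨hX, aX, -, eX⟩ := h.X
  obtain ⟨hR, aR, -, eR⟩ := h.R
  refine ⟨fun q => (2507 / 15876 - 193 / 2646 * hX q) * hR q * kX q +
    2 * (1 / 28 - 3151 / 31752 * hX q + 193 / 7938 * hX q ^ 2) * kR q, by fun_prop, ?_⟩
  filter_upwards [dX, dR, eX, eR, iI_pos] with z d1 d2 e1 e2 hz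
  have h1 := ((X1_diff (h.pos z hz)).hasDerivAt.comp z (h.der z hz)).unique d1
  have h2 := ((RR_diff (h.pos z hz)).hasDerivAt.comp z (h.der z hz)).unique d2
  have h3 := tpi_ne
  unfold ff
  rw [e1, e2, div_mul_eq_mul_div, div_eq_iff h3]
  linear_combination ((2507 / 15876 - 193 / 2646 * hX (qq z)) * hR (qq z)) * h1 +
    (2 * (1 / 28 - 3151 / 31752 * hX (qq z) + 193 / 7938 * hX (qq z) ^ 2)) * h2

lemma X1_add_one (z : ℂ) (hz : 0 < z.im) (hcp : S_CP) (hq : S_QEXP) : X1 (z + 1) = X1 z := by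
  have := X1_inv hcp hq 1 1 0 1 (by norm_num) z hz
  push_cast at this
  rw [one_mul, mul_zero, zero_mul, zero_add, div_one] at this
  exact this

lemma ff_add_one (hcp : S_CP) (hq : S_QEXP) {z : ℂ} (hz : 0 < z.im) : ff (z + 1) = ff z := by
  have := ff_gamma hcp hq (a := 1) (b := 1) (c := 0) (d := 1) (by norm_num) z hz
  push_cast at this
  rw [one_mul, mul_zero, zero_mul, zero_add, div_one, one_pow, one_mul] at this
  exact this

/-- the expansion at infinity -/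
lemma near_q (hcp : S_CP) (hq : S_QEXP) : ∃ k : ℂ → ℂ, AnalyticAt ℂ k 0 ∧ k 0 = 1 ∧
    ∀ᶠ z in iI, ff z = qq z * k (qq z) := by
  obtain ⟨r, ar, r0, er⟩ := QV_RR hq
  have hxi := xi_analytic
  have hr0 : r 0 ≠ 0 := by rw [r0]; norm_num
  refine ⟨fun q => (q * deriv xi q - 2 * xi q) / r q, ?_, ?_, ?_⟩
  · have := hxi.deriv
    exact AnalyticAt.div (by fun_prop) ar hr0
  · simp only [zero_mul, zero_sub, r0, xi_zero]
    norm_num
  · have e1 : ∀ᶠ z in iI, r (qq z) ≠ 0 :=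
      tendsto_qq.eventually (ar.continuousAt.eventually_ne hr0)
    have e2 : ∀ᶠ z in iI, AnalyticAt ℂ xi (qq z) := tendsto_qq.eventually hxi.eventually_analyticAt
    filter_upwards [e1, e2, er, iI_pos] with z h1 h2 h3 hz
    have hqz := qq_ne z
    have h4 := (h2.differentiableAt.hasDerivAt.comp z (hasDerivAt_qq z)).div
      ((hasDerivAt_qq z).pow 2) (pow_ne_zero 2 hqz)
    have h5 : X1 =ᶠ[𝓝 z] (xi ∘ qq) / (qq ^ 2) := by
      filter_upwards [H_open.mem_nhds hz] with w hw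
      exact X1_q hw
    have h6 := (h4.congr_of_eventuallyEq h5).deriv
    have h7 := ff_mul_R hcp hq hz
    rw [h6] at h7
    have h8 : RR z = r (qq z) / qq z ^ 3 := by
      rw [eq_div_iff (pow_ne_zero 3 hqz), ← h3]; ring
    rw [h8] at h7
    have h9 := tpi_ne
    simp only [Function.comp_apply, Pi.pow_apply] at h7
    push_cast at h7
    have hI : (Complex.I : ℂ) ≠ 0 := Complex.I_ne_zero
    have hpi : (Real.pi : ℂ) ≠ 0 := by exact_mod_cast Real.pi_ne_zero
    field_simp at h7 ⊢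
    linear_combination h7

end Pool.Agent.Run7.h741.MG
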