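import Pool.Agent.W97.MT.QX
import Pool.Agent.Run7.h741.MF.QX
import Pool.Agent.Run7.h741.MG.Eta

/-!
The first coefficients of the expansions of level `21`.
-/

set_option autoImplicit false

open PowerSeries

namespace Pool.Agent.Run7.h741.MG

open Pool.Agent.W97.TW
open Pool.Agent.W97.MT (RepC Q_ne Q_ne_pow S_QEXP Tr)
open Pool.Agent.Run7.h741.MF (Ts mulL addL subL thL dilL l1 num tr_euler)


/-- expansion of `X1` -/
def lxi : List ℤ := [1, 1, 2, 0, 2, 1, 2, -1, 0, 0, 2, -2, 1, -2]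

/-- expansion of `V1` -/
def lups : List ℤ := [1, -2, -1, 2, 1, 2, -2, -4, 6, 2, -7, -4, -8, 10]

/-- expansion of `V1 - X1²` -/
def lth : List ℤ := [-4, -6, -2, -7, -4, -16, -10, -4, 2, -20, -4, -16, 24]

theorem expansions (hq : S_QEXP) : ∃ Ξ U Θ : ℤ⟦X⟧, W97.MT.Rep xi Ξ ∧ W97.MT.Rep ups U ∧
    Tr Ξ lxi ∧ Tr U lups ∧ PowerSeries.X * Θ = U - Ξ ^ 2 ∧ Tr Θ lth := by
  obtain ⟨φ, h1, hr, hx⟩ := hq
  have hR : W97.MT.Rep Q φ := fun q hq => by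
    have := hr q hq
    simpa [Q] using this
  have t1 := tr_euler hx
  have three : (3 : ℕ) ≠ 0 := by norm_num
  have seven : (7 : ℕ) ≠ 0 := by norm_num
  have tw : (21 : ℕ) ≠ 0 := by norm_num
  have r3 := hR.expand 3 three
  have r7 := hR.expand 7 seven
  have r21 := hR.expand 21 tw
  have t3 := t1.expand three
  have t7 := t1.expand seven
  have t21 := t1.expand tw
  set E3 := PowerSeries.expand 3 three φ with hE3
  set E7 := PowerSeries.expand 7 seven φ with hE7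
  set E21 := PowerSeries.expand 21 tw φ with hE21
  have c3 : constantCoeff E3 = 1 := by rw [hE3]; simpa using h1
  have c7 : constantCoeff E7 = 1 := by rw [hE7]; simpa using h1
  have c21 : constantCoeff E21 = 1 := by rw [hE21]; simpa using h1
  have hinv : ∀ E : ℤ⟦X⟧, constantCoeff E = 1 → ∃ V : ℤ⟦X⟧, E * V = 1 := fun E hE => by
    have hu : IsUnit E := by
      rw [PowerSeries.isUnit_iff_constantCoeff, hE]; exact isUnit_one
    exact hu.exists_right_inv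
  obtain ⟨V1, hV1⟩ := hinv φ h1
  obtain ⟨V3, hV3⟩ := hinv (E21 ^ 3) (by rw [map_pow, c21, one_pow])
  obtain ⟨V6, hV6⟩ := hinv (E21 ^ 6) (by rw [map_pow, c21, one_pow])
  have i1 := hR.inv hV1 fun q hq => Q_ne hq
  have i3 := (r21.pow 3).inv hV3 fun q hq => pow_ne_zero _ (Q_ne_pow hq tw)
  have i6 := (r21.pow 6).inv hV6 fun q hq => pow_ne_zero _ (Q_ne_pow hq tw)
  have tΞ : Ts (V1 * E3 ^ 3 * E7 * V3) lxi := by
    refine MF.Ts.cancel (W := φ * E21 ^ 3) (b := mulL (MF.Ts.powL (dilL 3 l1) 3) (dilL 7 l1)) ?_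
      (t1.mul (t21.pow 3)) (by rw [map_mul, map_pow, h1, c21]; norm_num) (by decide +kernel)
    refine ((t3.pow 3).mul t7).of_eq ?_
    linear_combination (-(E3 ^ 3 * E7 * (V3 * E21 ^ 3))) * hV1 - E3 ^ 3 * E7 * hV3
  have tU : Ts (φ ^ 2 * E7 ^ 4 * V6) lups := by
    refine MF.Ts.cancel (W := E21 ^ 6)
      (b := mulL (MF.Ts.powL l1 2) (MF.Ts.powL (dilL 7 l1) 4)) ?_
      (t21.pow 6) (by rw [map_pow, c21]; norm_num) (by decide +kernel)
    refine ((t1.pow 2).mul (t7.pow 4)).of_eq ?_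
    linear_combination (-(φ ^ 2 * E7 ^ 4)) * hV6
  have tD := tU.sub (tΞ.pow 2)
  have hz : PowerSeries.X ∣ (φ ^ 2 * E7 ^ 4 * V6) - (V1 * E3 ^ 3 * E7 * V3) ^ 2 := by
    rw [PowerSeries.X_dvd_iff, ← PowerSeries.coeff_zero_eq_constantCoeff_apply, tD 0 (by norm_num)]
    decide +kernel
  obtain ⟨Θ, hΘ⟩ := hz
  refine ⟨V1 * E3 ^ 3 * E7 * V3, φ ^ 2 * E7 ^ 4 * V6, Θ, ?_, ?_, tΞ.tr, tU.tr, hΘ.symm, ?_⟩
  · exact ((i1.mul (r3.pow 3)).mul r7).mul i3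
  · exact ((hR.pow 2).mul (r7.pow 4)).mul i6
  · intro n hn
    have h2 := tD (n + 1) (by omega)
    rw [hΘ, PowerSeries.coeff_succ_X_mul] at h2
    rw [h2]
    clear h2
    revert n
    decide +kernel

theorem identity_one {Ξ Θ : ℤ⟦X⟧} (hΞ : Tr Ξ lxi) (hΘ : Tr Θ lth) : PowerSeries.X ^ 13 ∣
    (Θ ^ 2 + 14 * (PowerSeries.X ^ 3 * Θ) + 49 * PowerSeries.X ^ 6 +
      92 * (PowerSeries.X * Ξ) ^ 2) ^ 2 - 256 * (Ξ ^ 2 * (Ξ ^ 2 + 7 * PowerSeries.X ^ 4) ^ 2) := by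
  refine W97.MT.Tr.dvd_of_zero ?_
  rw [num 14, num 49, num 92, num 256, num 7]
  refine W97.MT.Tr.congr (((((((hΘ.pow 2).add ((W97.MT.Tr.C 14).mul ((W97.MT.Tr.X.pow 3).mul hΘ))).add
    ((W97.MT.Tr.C 49).mul (W97.MT.Tr.X.pow 6))).add ((W97.MT.Tr.C 92).mul
    ((W97.MT.Tr.X.mul hΞ).pow 2))).pow 2)).sub
    ((W97.MT.Tr.C 256).mul ((hΞ.pow 2).mul (((hΞ.pow 2).add ((W97.MT.Tr.C 7).mul
    (W97.MT.Tr.X.pow 4))).pow 2)))) ?_
  decide +kernel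

end Pool.Agent.Run7.h741.MG
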