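import Pool.Agent.Run7.h741.MG.Cusps
import Pool.Agent.Run7.h741.MG.QX
import Pool.Agent.W97.MT.Ident

/-!
The identities between the modular functions.
-/

set_option autoImplicit false

open Filter Topology

namespace Pool.Agent.Run7.h741.MG

open Pool.Agent.W97.TW
open Pool.Agent.Run7.h741.MF (num)
open Pool.Agent.W97.MT (qq tt tt_ne qq_ne tt_pow norm_qq norm_qq_lt eta_mul eta_one G_mul Q_ne
  Q_ne_pow G_ne im_mul z_ne H_open eta_diff QV QV_Q QV_Q1 QV_of_sq Q_contOn Q_contOn1 qq_cont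
  comp_cont iI iI_pos S_QEXP RepC QV_zero_of_dvd mul_zero_or Qq_analytic hasDerivAt_qq tpi_ne
  eq_or_eq_neg)

/-- invariance under `Γ_0(21)` -/
def Inv (g : ℂ → ℂ) : Prop := ∀ a b c d : ℤ, a * d - b * (21 * c) = 1 → ∀ z : ℂ, 0 < z.im →
  g ((a * z + b) / (21 * c * z + d)) = g z

theorem cp_zero (hcp : S_CP) {g : ℂ → ℂ} (hd : ∀ z : ℂ, 0 < z.im → DifferentiableAt ℂ g z)
    (hinv : Inv g) (h1 : QV g 0) {v21 v7 v3 : ℂ} (h21 : QV (fun z => g (m21 z)) v21)
    (h7 : QV (fun z => g (m7 z)) v7) (h3 : QV (fun z => g (m3 z)) v3) :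
    ∀ z : ℂ, 0 < z.im → g z = 0 := by
  obtain ⟨c, hc⟩ := hcp g (fun z hz => (hd z hz).differentiableWithinAt) hinv h1.bounded'
    h21.bounded h7.bounded h3.bounded
  have h3 : QV g c := (QV.const c).of_eq (iI_pos.mono fun z hz => hc z hz)
  have h4 := h3.val_unique h1
  intro z hz
  rw [hc z hz, h4]

lemma qq_X1 {z : ℂ} (hz : 0 < z.im) : qq z ^ 2 * X1 z = xi (qq z) := by
  rw [X1_q hz]
  field_simp [qq_ne z]

lemma qq_V1 {z : ℂ} (hz : 0 < z.im) : qq z ^ 4 * V1 z = ups (qq z) := by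
  rw [V1_q hz]
  field_simp [qq_ne z]

lemma xi_zero : xi 0 = 1 := by
  unfold xi
  simp [Q_zero]

lemma ups_zero : ups 0 = 1 := by
  unfold ups
  simp [Q_zero]

/-- the function `V - X²`, of order three -/
noncomputable def Y1 (z : ℂ) : ℂ := V1 z - X1 z ^ 2

lemma Y1_diff {z : ℂ} (hz : 0 < z.im) : DifferentiableAt ℂ Y1 z :=
  (V1_diff hz).sub ((X1_diff hz).pow 2)

lemma Y1_gamma {a b c d : ℤ} (h : a * d - b * (21 * c) = 1) {z : ℂ} (hz : 0 < z.im) :
    Y1 ((a * z + b) / (21 * c * z + d)) = Y1 z := by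
  unfold Y1
  rw [V1_gamma h hz, X1_sq_gamma h hz]

/-- the expansion of `Y1` -/
lemma exists_theta {Ξ U Θ : PowerSeries ℤ} (rΞ : W97.MT.Rep xi Ξ) (rU : W97.MT.Rep ups U)
    (hΘ : PowerSeries.X * Θ = U - Ξ ^ 2) : ∃ th : ℂ → ℂ, W97.MT.Rep th Θ ∧
      ∀ z : ℂ, 0 < z.im → qq z ^ 3 * Y1 z = th (qq z) := by
  have h1 : W97.MT.Rep (fun q => ups q - xi q ^ 2) (U - Ξ ^ 2) := rU.sub (rΞ.pow 2)
  rw [← hΘ] at h1
  have h2 : RepC (fun q => ups q - xi q ^ 2)
      (PowerSeries.X ^ 1 * (PowerSeries.map (Int.castRingHom ℂ) Θ)) := by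
    have := h1
    unfold W97.MT.Rep at this
    rwa [map_mul, PowerSeries.map_X, ← pow_one (PowerSeries.X : PowerSeries ℂ)] at this
  obtain ⟨k, hk, h3⟩ := h2.of_X_pow_mul
  refine ⟨k, hk, fun z hz => ?_⟩
  have h4 := h3 (qq z) (norm_qq_lt hz)
  rw [pow_one, ← qq_X1 hz, ← qq_V1 hz] at h4
  refine mul_left_cancel₀ (qq_ne z) ?_
  rw [← h4]
  unfold Y1
  ring

/-- the first function -/
noncomputable def g1 (z : ℂ) : ℂ :=
  (Y1 z ^ 2 + 14 * Y1 z + 49 + 92 * X1 z ^ 2) ^ 2 - 256 * (X1 z ^ 2 * (X1 z ^ 2 + 7) ^ 2)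

lemma IsCusp.Y {m j : ℂ → ℂ} {x y : ℂ} (h : IsCusp m j x y) :
    QV (fun z => Y1 (m z)) (y - x ^ 2) := h.V.sub (h.X.pow 2)

lemma g1_cusp {m j : ℂ → ℂ} {x y : ℂ} (h : IsCusp m j x y) : ∃ v, QV (fun z => g1 (m z)) v :=
  ⟨_, ((((((h.Y.pow 2).add ((QV.const 14).mul h.Y)).add (QV.const 49)).add
    ((QV.const 92).mul (h.X.pow 2))).pow 2)).sub ((QV.const 256).mul ((h.X.pow 2).mul
      (((h.X.pow 2).add (QV.const 7)).pow 2)))⟩

lemma cusp_of_or {m j : ℂ → ℂ} {x x' y : ℂ} (h : IsCusp m j x y ∨ IsCusp m j x' y) :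
    ∃ x'', (x'' = x ∨ x'' = x') ∧ IsCusp m j x'' y := by
  rcases h with h | h
  · exact ⟨x, Or.inl rfl, h⟩
  · exact ⟨x', Or.inr rfl, h⟩

lemma g1_diff {z : ℂ} (hz : 0 < z.im) : DifferentiableAt ℂ g1 z := by
  have h1 := X1_diff hz
  have h2 := Y1_diff hz
  unfold g1
  fun_prop

lemma g1_inv : Inv g1 := by
  intro a b c d h z hz
  unfold g1
  rw [X1_sq_gamma h hz, Y1_gamma h hz]

theorem g1_zero (hcp : S_CP) (hq : S_QEXP) : ∀ z : ℂ, 0 < z.im → g1 z = 0 := by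
  obtain ⟨Ξ, U, Θ, rΞ, rU, tΞ, tU, hΘ, tΘ⟩ := expansions hq
  obtain ⟨th, rΘ, hth⟩ := exists_theta rΞ rU hΘ
  obtain ⟨x21, -, c21⟩ := cusp_of_or cusp21
  obtain ⟨x3, -, c3⟩ := cusp_of_or cusp3
  obtain ⟨v21, h21⟩ := g1_cusp c21
  obtain ⟨v7, h7⟩ := g1_cusp cusp7
  obtain ⟨v3, h3⟩ := g1_cusp c3
  have hid := identity_one tΞ tΘ
  rw [num 14, num 49, num 92, num 256, num 7] at hid
  have hrep := (((((((rΘ.pow 2).add ((W97.MT.Rep.C 14).mul ((W97.MT.Rep.X.pow 3).mul rΘ))).add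
    ((W97.MT.Rep.C 49).mul (W97.MT.Rep.X.pow 6))).add ((W97.MT.Rep.C 92).mul
    ((W97.MT.Rep.X.mul rΞ).pow 2))).pow 2)).sub
    ((W97.MT.Rep.C 256).mul ((rΞ.pow 2).mul (((rΞ.pow 2).add ((W97.MT.Rep.C 7).mul
    (W97.MT.Rep.X.pow 4))).pow 2))))
  refine cp_zero hcp (fun z hz => g1_diff hz) g1_inv (QV_zero_of_dvd (m := 12) hrep hid ?_)
    h21 h7 h3
  intro z hz
  unfold g1
  rw [← qq_X1 hz, ← hth z hz]
  push_cast
  ring

lemma xi_analytic : AnalyticAt ℂ xi 0 := by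
  have e1 := Qq_analytic 1 one_ne_zero
  have e3 := Qq_analytic 3 (by norm_num)
  have e7 := Qq_analytic 7 (by norm_num)
  have e21 := Qq_analytic 21 (by norm_num)
  simp only [pow_one] at e1
  exact (((e1.inv (by simp [Q_zero])).mul (e3.pow 3)).mul e7).mul
    ((e21.pow 3).inv (by simp [Q_zero]))

lemma QV_xi : QV (fun z => xi (qq z)) 1 := (QV.comp xi_analytic).of_val xi_zero

/-- the leading term of `Y1` -/
lemma QV_Y1 (hq : S_QEXP) : QV (fun z => qq z ^ 3 * Y1 z) (-4) := by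
  obtain ⟨Ξ, U, Θ, rΞ, rU, tΞ, tU, hΘ, tΘ⟩ := expansions hq
  obtain ⟨th, rΘ, hth⟩ := exists_theta rΞ rU hΘ
  have h0 : th 0 = -4 := by
    have h1 := rΘ 0 (by simp)
    have h2 := hasSum_single (f := fun n : ℕ => PowerSeries.coeff n
      (PowerSeries.map (Int.castRingHom ℂ) Θ) * (0 : ℂ) ^ n) 0 (by
      intro n hn
      rw [zero_pow hn, mul_zero])
    have h3 := h1.unique h2
    rw [h3]
    have h4 := tΘ 0 (by norm_num)
    simp only [pow_zero, mul_one, PowerSeries.coeff_map]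
    rw [h4]
    norm_num [lth]
  exact ((QV.comp rΘ.analyticAt_zero).of_val h0).of_eq (iI_pos.mono fun z hz => hth z hz)

/-- the leading terms -/
lemma QV_N (hq : S_QEXP) :
    QV (fun z => qq z ^ 6 * (Y1 z ^ 2 + 14 * Y1 z + 49 + 92 * X1 z ^ 2)) 16 := by
  have hY := QV_Y1 hq
  refine ((((((hY.pow 2).add ((QV.const 14).mul ((QV.qq'.pow 3).mul hY))).add
    ((QV.const 49).mul (QV.qq'.pow 6))).add ((QV.const 92).mul ((QV.qq'.mul QV_xi).pow 2)))).of_eq
    (iI_pos.mono fun z hz => ?_)).of_val (by norm_num)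
  rw [← qq_X1 hz]
  ring

lemma QV_XD : QV (fun z => qq z ^ 6 * (16 * (X1 z * (X1 z ^ 2 + 7)))) 16 := by
  refine (((QV.const 16).mul (QV_xi.mul ((QV_xi.pow 2).add ((QV.const 7).mul
    (QV.qq'.pow 4))))).of_eq (iI_pos.mono fun z hz => ?_)).of_val (by norm_num)
  rw [← qq_X1 hz]
  ring

/-- the equation of the curve -/
theorem curve (hcp : S_CP) (hq : S_QEXP) : ∀ z : ℂ, 0 < z.im →
    Y1 z ^ 2 + 14 * Y1 z + 49 + 92 * X1 z ^ 2 = 16 * (X1 z * (X1 z ^ 2 + 7)) := by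
  have h0 := g1_zero hcp hq
  have h := mul_zero_or (f := fun z => (Y1 z ^ 2 + 14 * Y1 z + 49 + 92 * X1 z ^ 2) -
      16 * (X1 z * (X1 z ^ 2 + 7))) (g := fun z => (Y1 z ^ 2 + 14 * Y1 z + 49 + 92 * X1 z ^ 2) +
      16 * (X1 z * (X1 z ^ 2 + 7))) (fun z hz => by
        have h1 := X1_diff hz
        have h2 := Y1_diff hz
        fun_prop) (fun z hz => by
        have h1 := X1_diff hz
        have h2 := Y1_diff hz
        fun_prop) (fun z hz => by
        have := h0 z hz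
        unfold g1 at this
        linear_combination this)
  rcases h with h | h
  · intro z hz
    exact sub_eq_zero.1 (h z hz)
  · exfalso
    have h1 := ((QV_N hq).add QV_XD).of_eq (f := fun _ => 0) (iI_pos.mono fun z hz => by
      have := h z hz
      linear_combination (-(qq z ^ 6)) * this)
    have h2 := h1.val_unique (QV.const 0)
    norm_num at h2

/-- the equation of the curve, second form -/
theorem curve' (hcp : S_CP) (hq : S_QEXP) {z : ℂ} (hz : 0 < z.im) :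
    (V1 z - X1 z ^ 2 + 7) ^ 2 = 16 * X1 z ^ 3 - 92 * X1 z ^ 2 + 112 * X1 z := by
  have := curve hcp hq z hz
  unfold Y1 at this
  linear_combination this

/-- `X1` is invariant -/
theorem X1_inv (hcp : S_CP) (hq : S_QEXP) : Inv X1 := by
  intro a b c d h
  have hm : ∀ z : ℂ, 0 < z.im → 0 < ((a * z + b) / (21 * c * z + d) : ℂ).im := fun z hz =>
    (G_gamma h hz).1
  have hc : ContinuousOn (fun z : ℂ => X1 ((a * z + b) / (21 * c * z + d))) {z : ℂ | 0 < z.im} := by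
    refine X1_cont.comp ?_ hm
    intro z hz
    have := (G_gamma h hz).2.1
    exact ContinuousAt.continuousWithinAt (ContinuousAt.div (by fun_prop) (by fun_prop) this)
  rcases eq_or_eq_neg hc X1_cont (fun z hz => X1_sq_gamma h hz) (fun z hz => X1_ne hz) with h1 | h1
  · exact h1
  · exfalso
    have h2 : ∀ z : ℂ, 0 < z.im → Y1 z ^ 2 + 14 * Y1 z + 49 + 92 * X1 z ^ 2 = 0 := by
      intro z hz
      have h3 := curve hcp hq z hz
      have h4 := curve hcp hq _ (hm z hz)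
      rw [h1 z hz, Y1_gamma h hz] at h4
      linear_combination (1 / 2 : ℂ) * h3 + (1 / 2 : ℂ) * h4
    have h3 := (QV_N hq).of_eq (f := fun _ => 0) (iI_pos.mono fun z hz => by rw [h2 z hz]; ring)
    have h4 := h3.val_unique (QV.const 0)
    norm_num at h4

lemma curve_cusp (hcp : S_CP) (hq : S_QEXP) {m j : ℂ → ℂ} {x y : ℂ} (h : IsCusp m j x y) :
    (y - x ^ 2 + 7) ^ 2 = 16 * x ^ 3 - 92 * x ^ 2 + 112 * x := by
  have h1 := ((h.V.sub (h.X.pow 2)).add (QV.const 7)).pow 2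
  have h2 := (((QV.const 16).mul (h.X.pow 3)).sub ((QV.const 92).mul (h.X.pow 2))).add
    ((QV.const 112).mul h.X)
  refine h1.val_unique (h2.of_eq (iI_pos.mono fun z hz => ?_))
  exact curve' hcp hq (h.pos z hz)

theorem isCusp21 (hcp : S_CP) (hq : S_QEXP) : IsCusp m21 j21 7 0 := by
  rcases cusp21 with h | h
  · exact h
  · exfalso
    have := curve_cusp hcp hq h
    norm_num at this

theorem isCusp3 (hcp : S_CP) (hq : S_QEXP) : IsCusp m3 j3 1 0 := by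
  rcases cusp3 with h | h
  · exact h
  · exfalso
    have := curve_cusp hcp hq h
    norm_num at this

lemma hasDerivAt_gamma {a b c d : ℤ} (h : a * d - b * (21 * c) = 1) {z : ℂ} (hz : 0 < z.im) :
    HasDerivAt (fun z : ℂ => (a * z + b) / (21 * c * z + d)) (((21 * c * z + d) ^ 2)⁻¹) z := by
  have h0 := (G_gamma h hz).2.1
  have h1 : HasDerivAt (fun w : ℂ => (a : ℂ) * w + b) a z := by
    simpa using ((hasDerivAt_id z).const_mul (a : ℂ)).add_const (b : ℂ)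
  have h2 : HasDerivAt (fun w : ℂ => 21 * (c : ℂ) * w + d) (21 * c) z := by
    simpa using ((hasDerivAt_id z).const_mul (21 * (c : ℂ))).add_const (d : ℂ)
  refine (h1.div h2 h0).congr_deriv ?_
  have h3 : (a : ℂ) * d - b * (21 * c) = 1 := by exact_mod_cast h
  field_simp
  linear_combination h3

/-- the derivative of an invariant function is of weight two -/
lemma deriv_gamma {g : ℂ → ℂ} (hg : Inv g) (hd : ∀ z : ℂ, 0 < z.im → DifferentiableAt ℂ g z)
    {a b c d : ℤ} (h : a * d - b * (21 * c) = 1) {z : ℂ} (hz : 0 < z.im) :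
    deriv g ((a * z + b) / (21 * c * z + d)) = (21 * c * z + d) ^ 2 * deriv g z := by
  have h0 := (G_gamma h hz).2.1
  have hm := (G_gamma h hz).1
  have h1 := (hd _ hm).hasDerivAt.comp z (hasDerivAt_gamma h hz)
  have h2 : g ∘ (fun z : ℂ => (a * z + b) / (21 * c * z + d)) =ᶠ[𝓝 z] g := by
    filter_upwards [H_open.mem_nhds hz] with w hw
    exact hg a b c d h w hw
  have h3 := (h1.congr_of_eventuallyEq h2.symm).deriv
  rw [h3, mul_comm (deriv g _), ← mul_assoc, mul_inv_cancel₀ (pow_ne_zero 2 h0), one_mul]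

/-- the function `R`, `R² = 4X³ - 23X² + 28X` -/
noncomputable def RR (z : ℂ) : ℂ := (Y1 z + 7) / 2

lemma RR_diff {z : ℂ} (hz : 0 < z.im) : DifferentiableAt ℂ RR z := by
  have := Y1_diff hz
  unfold RR
  fun_prop

lemma RR_sq (hcp : S_CP) (hq : S_QEXP) {z : ℂ} (hz : 0 < z.im) :
    RR z ^ 2 = 4 * X1 z ^ 3 - 23 * X1 z ^ 2 + 28 * X1 z := by
  have := curve hcp hq z hz
  unfold RR
  linear_combination (1 / 4 : ℂ) * this

lemma RR_inv : Inv RR := by
  intro a b c d h z hz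
  unfold RR
  rw [Y1_gamma h hz]

lemma QV_RR (hq : S_QEXP) : QV (fun z => qq z ^ 3 * RR z) (-2) := by
  refine ((((QV_Y1 hq).add ((QV.const 7).mul (QV.qq'.pow 3))).mul (QV.const (1 / 2))).of_eq
    (Eventually.of_forall fun z => ?_)).of_val (by norm_num)
  unfold RR
  ring

lemma IsCusp.R {m j : ℂ → ℂ} {x y : ℂ} (h : IsCusp m j x y) :
    QV (fun z => RR (m z)) ((y - x ^ 2 + 7) / 2) := by
  refine ((h.Y.add (QV.const 7)).mul (QV.const (1 / 2))).of_eq
    (f := fun z => RR (m z)) (Eventually.of_forall fun z => ?_) |>.of_val (by ring)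
  unfold RR
  ring

end Pool.Agent.Run7.h741.MG
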