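import Pool.Agent.Run7.h741.MG.Fin
import Pool.Agent.Run7.h741.FR.Fr
import Pool.Agent.Run7.h843.P21.Sym2
import Pool.Agent.TH940.Cen

/-!
The facts on the newform of level 21 needed for the `L`-functions of the twists.
-/

set_option autoImplicit false

open UpperHalfPlane MatrixGroups CongruenceSubgroup Filter Topology MeasureTheory
open scoped ModularForm Pointwise

namespace Pool.Agent.Run7.h741.MG

open Pool.Agent.W97.TW
open Pool.Agent.W97.MT (qq qq_ne norm_qq norm_qq_lt im_mul z_ne H_open QV iI iI_pos iI_eventually tendsto_qq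
  S_QEXP S_INJ S_ODE S_SUB hasDerivAt_qq tpi_ne line_im line_re inv_I im_aux exists_qq dslope_analytic
  qParam_one cusp_expansion ap affCount Tr prim const_of_deriv)
open Pool.Agent.Run7.h741.MF (hqe hinj hode hsub hsup hhint)
open Pool.Agent.Run7.h843.P21.MS (C0 C0_lim II_eq hit21_id)
open Pool.Agent.Run7.h741.FR (frForm frForm_apply)

section form

variable {form21 : CuspForm (Gamma0 21 : Subgroup (GL (Fin 2) ℝ)) 2} (hf : ∀ z : ℍ, form21 z = ff z)
include hf

/-- all the facts on the coefficients that come from the `q`-expansion -/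
theorem facts :
    (∀ n : ℕ, ∃ c : ℤ, (qExpansion 1 form21).coeff n = (c : ℂ)) ∧
    (qExpansion 1 form21).coeff 1 = 1 ∧
    (∀ l : ℕ, l.Prime → (qExpansion 1 form21).coeff l = (ap E21 l : ℂ)) ∧
    (∀ (p : ℕ), p.Prime → ∀ z : ℍ, heckeT 21 2 p form21 z = (ap E21 p : ℂ) * form21 z) := by
  obtain ⟨L, Op, Om, hOp, hOm, g2, g3, hL⟩ := Run7.h209.P21.m_lat
  obtain ⟨P, Ξ, σ, rP, rΞ, cΞ, cσ, d2, d3, hP0, hP1, hP2, hP6⟩ := exists_P
  have hcoef : ∀ l : ℕ, l.Prime → PowerSeries.coeff (l - 1) P = ap E21 l := fun l hl =>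
    coef_eq hf L g2 g3 rP cΞ cσ d2 d3 hP0 hP1 hP2 hP6 hl
  refine ⟨fun n => ⟨_, coeff_f21 hf rP n⟩, coeff_one hf rP hP0, ?_, ?_⟩
  · intro l hl
    have h1 := coeff_f21 hf rP (l : ℕ)
    have h2 := hcoef l hl
    obtain ⟨m, hm⟩ : ∃ m, (l : ℕ) = m + 1 := ⟨l - 1, by have := hl.pos; omega⟩
    rw [hm] at h2
    rw [Nat.add_sub_cancel] at h2
    rw [h1, hm, PowerSeries.coeff_succ_X_mul, h2]
  · intro p hp z
    have h1 := hecke_f21 hf rP hP0 hp z
    rw [hcoef p hp] at h1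
    have h6 : Pool.Agent.W97.MT.hecke 21 p form21 z = heckeT 21 2 p form21 z := by
      unfold Pool.Agent.W97.MT.hecke heckeT
      norm_num
    rw [← h6]
    exact h1

/-- the Fricke involution acts by a scalar -/
lemma fricke_scalar : ∃ c : ℂ, ∀ z : ℂ, 0 < z.im → ff (m21 z) * j21 z = c * ff z := by
  obtain ⟨P, Ξ, σ, rP, rΞ, cΞ, cσ, d2, d3, hP0, hP1, hP2, hP6⟩ := exists_P
  obtain ⟨c, hc⟩ := dim_one hf rP hP0 (frForm form21)
  refine ⟨c, fun z hz => ?_⟩
  have h1 := hc ⟨z, hz⟩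
  rw [frForm_apply, hf ⟨z, hz⟩] at h1
  have h0 := z_ne hz
  have e1 : (-1 / (((21 : ℕ) : ℂ) * ((⟨z, hz⟩ : ℍ) : ℂ))) = m21 z := by
    unfold m21
    push_cast
    rfl
  rw [e1, form21_of hf ((isCusp21 hcp hqe).pos z hz)] at h1
  change ff (m21 z) * ((21 : ℕ) : ℂ) ^ ((2 : ℤ) - 1) * (((21 : ℕ) : ℂ) * z) ^ (-(2 : ℤ)) = c * ff z at h1
  rw [← h1, zpow_neg, show ((2 : ℤ) - 1) = 1 by norm_num, zpow_one]
  unfold j21
  rw [show (((21 : ℕ) : ℂ) * z) ^ (2 : ℤ) = (((21 : ℕ) : ℂ) * z) ^ 2 from zpow_ofNat _ 2]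
  push_cast
  field_simp

lemma fricke_pm : ∃ c : ℂ, (c = 1 ∨ c = -1) ∧ ∀ z : ℂ, 0 < z.im → ff (m21 z) * j21 z = c * ff z := by
  obtain ⟨c, hc⟩ := fricke_scalar hf
  refine ⟨c, ?_, hc⟩
  obtain ⟨z, hz, hne⟩ := ff_ne
  have h1 := hc z hz
  have h2 := hc (m21 z) ((isCusp21 hcp hqe).pos z hz)
  have h0 := z_ne hz
  have e1 : m21 (m21 z) = z := by
    unfold m21
    field_simp
  have e2 : j21 (m21 z) * j21 z = 1 := by
    unfold j21 m21
    field_simp
  rw [e1] at h2
  have h3 : ff z = c ^ 2 * ff z := by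
    calc ff z = ff z * (j21 (m21 z) * j21 z) := by rw [e2, mul_one]
      _ = (ff z * j21 (m21 z)) * j21 z := by ring
      _ = c * (ff (m21 z) * j21 z) := by rw [h2]; ring
      _ = c ^ 2 * ff z := by rw [h1]; ring
  have h4 : c ^ 2 = 1 := by
    have : (c ^ 2 - 1) * ff z = 0 := by linear_combination -h3
    rcases mul_eq_zero.1 this with h | h
    · linear_combination h
    · exact absurd h hne
  have h5 : (c - 1) * (c + 1) = 0 := by linear_combination h4
  rcases mul_eq_zero.1 h5 with h | h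
  · left; linear_combination h
  · right; linear_combination h

/-- the sign of the functional equation -/
theorem fricke_neg : ∀ z : ℂ, 0 < z.im → ff (m21 z) * j21 z = -ff z := by
  obtain ⟨c, hc1, hc⟩ := fricke_pm hf
  rcases hc1 with rfl | rfl
  · exfalso
    obtain ⟨L, Op, Om, hOp, hOm, g2, g3, hL⟩ := Run7.h209.P21.m_lat
    have hC := isCusp21 hcp hqe
    obtain ⟨C, hC1⟩ := const_of_deriv (g := fun z => F (m21 z) - F z) fun z hz => by
      have e1 := ((F_deriv (hC.pos z hz)).comp z (hC.der z hz)).sub (F_deriv hz)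
      refine e1.congr_deriv ?_
      have := hc z hz
      linear_combination (2 * Real.pi * Complex.I) * this
    -- the fixed point
    have hs : (0 : ℝ) < Real.sqrt 21 := by positivity
    have hz : 0 < (((1 / Real.sqrt 21 : ℝ) : ℂ) * Complex.I).im := by
      simp
    have e1 : m21 (((1 / Real.sqrt 21 : ℝ) : ℂ) * Complex.I) = ((1 / Real.sqrt 21 : ℝ) : ℂ) * Complex.I := by
      have h1 : ((Real.sqrt 21 : ℝ) : ℂ) ^ 2 = 21 := by
        have : (Real.sqrt 21) ^ 2 = 21 := Real.sq_sqrt (by norm_num)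
        exact_mod_cast this
      have h2 : ((Real.sqrt 21 : ℝ) : ℂ) ≠ 0 := by exact_mod_cast hs.ne'
      have h3 := Complex.I_ne_zero
      unfold m21
      push_cast
      rw [div_eq_iff (mul_ne_zero (by norm_num) (mul_ne_zero (by
        rw [one_div]; exact inv_ne_zero h2) h3))]
      field_simp
      rw [h1]
      linear_combination (-21 : ℂ) * Complex.I_sq
    have h0 := hC1 _ hz
    beta_reduce at h0
    rw [e1, sub_self] at h0
    have h4 : Tendsto (fun z => F (m21 z)) iI (𝓝 0) := by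
      refine F_QV.tendsto.congr' (iI_pos.mono fun z hz => ?_)
      have := hC1 z hz
      beta_reduce at this
      rw [← h0] at this
      exact (sub_eq_zero.1 this).symm
    exact (cusp_value L g2 g3 hC h4).1 (zero_mem _)
  · intro z hz
    rw [hc z hz]
    ring

/-- the Fricke involution -/
theorem fricke_ex : ∃ w : ℝ, (w = 1 ∨ w = -1) ∧ ∀ τ τ' : ℍ, (τ' : ℂ) * (((21 : ℕ) : ℂ) * (τ : ℂ)) = -1 →
    form21 τ' = -(w : ℂ) * ((21 : ℕ) : ℂ) * (τ : ℂ) ^ 2 * form21 τ := by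
  refine ⟨1, Or.inl rfl, fun τ τ' hτ => ?_⟩
  have h0 : (τ : ℂ) ≠ 0 := z_ne τ.im_pos
  push_cast at hτ
  have e1 : (τ' : ℂ) = m21 τ := by
    unfold m21
    rw [eq_div_iff (mul_ne_zero (by norm_num) h0)]
    exact hτ
  have e2 := fricke_neg hf τ τ.im_pos
  rw [← e1] at e2
  rw [hf, hf]
  unfold j21 at e2
  have h15 : (21 * (τ : ℂ) ^ 2) ≠ 0 := mul_ne_zero (by norm_num) (pow_ne_zero 2 h0)
  rw [← div_eq_mul_inv, div_eq_iff h15] at e2
  rw [e2]
  push_cast
  ring

/-- the two primitives agree -/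
theorem prim_F {z : ℂ} (hz : 0 < z.im) : TH940.prim form21 z = F z := by
  obtain ⟨C, hC⟩ := const_of_deriv (g := fun z => TH940.prim form21 z - F z) fun z hz => by
    have e1 := TH940.prim_deriv form21 ⟨z, hz⟩
    have e2 := e1.sub (F_deriv hz)
    refine e2.congr_deriv ?_
    have e3 : form21 ⟨z, hz⟩ = ff z := hf _
    rw [e3]
    ring
  have h1 := TH940.prim_line form21 0
  have h2 : Tendsto (fun T : ℝ => F ((((0 : ℝ) : ℂ)) + (T : ℂ) * Complex.I)) atTop (𝓝 0) :=
    F_line_tendsto ((0 : ℝ) : ℂ)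
  have h3 := h1.sub h2
  rw [sub_zero] at h3
  have h4 : Tendsto (fun _ : ℝ => C) atTop (𝓝 0) := by
    refine h3.congr' ?_
    filter_upwards [eventually_gt_atTop 0] with T hT
    exact hC _ (by simpa using hT)
  have h5 := tendsto_nhds_unique h4 tendsto_const_nhds
  have h6 := hC z hz
  beta_reduce at h6
  rw [← h5] at h6
  exact sub_eq_zero.1 h6

omit hf in
/-- the boundary values of the primitive -/
theorem F_lim {u n : ℤ} (hn : 0 < n) (hun : IsCoprime u n) (h3 : IsCoprime n 21) :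
    Tendsto (fun t : ℝ => F ((u : ℂ) / n + t * Complex.I)) (𝓝[>] 0) (𝓝 (II ((u : ℚ) / n))) := by
  have h1 : IsCoprime (21 * u) n := (h3.symm).mul_left hun
  obtain ⟨w, y, hwy⟩ := h1
  have hdet : 21 * u * w - n * (-y) = 1 := by linarith
  rw [II_eq hn hdet]
  exact (hit_per (isCusp21 hcp hqe).map (r := (u : ℂ) / n) C0_lim (by
      have : (u : ℂ) / n = (((u : ℝ) / n : ℝ) : ℂ) := by push_cast; rfl
      rw [this]; exact Complex.ofReal_im _) (a := -(-y)) (b := u) (c := -w) (d := n)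
    (K := 21 * (n : ℝ) ^ 2) (x := -w / n) (by linarith) (by positivity)
    (fun s hs => hit21_id hn hdet s hs)).2.1

theorem prim_lim {u n : ℤ} (hn : 0 < n) (hun : IsCoprime u n) (h3 : IsCoprime n 21) :
    Tendsto (fun t : ℝ => TH940.prim form21 ((u : ℂ) / n + t * Complex.I)) (𝓝[>] 0)
      (𝓝 (II ((u : ℚ) / n))) := by
  refine (F_lim hn hun h3).congr' ?_
  filter_upwards [self_mem_nhdsWithin] with t ht
  have ht0 : (0 : ℝ) < t := ht
  refine (prim_F hf ?_).symm
  rw [line_im]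
  have : ((u : ℂ) / n) = (((u : ℝ) / n : ℝ) : ℂ) := by push_cast; rfl
  rw [this, Complex.ofReal_im]
  linarith

end form

end Pool.Agent.Run7.h741.MG
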