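import Pool.Agent.Run7.h741.MG.Disc

/-!
Integrals of the form along vertical lines.
-/

set_option autoImplicit false

open Filter Topology MeasureTheory Set

namespace Pool.Agent.Run7.h741.MG

open Pool.Agent.W97.TW
open Pool.Agent.W97.MT (qq tt tt_ne qq_ne tt_pow norm_qq norm_qq_lt eta_mul eta_one G_mul Q_ne
  Q_ne_pow G_ne im_mul z_ne H_open eta_diff QV QV_Q QV_Q1 QV_of_sq Q_contOn Q_contOn1 qq_cont
  comp_cont iI iI_pos S_QEXP RepC QV_zero_of_dvd mul_zero_or Qq_analytic hasDerivAt_qq tpi_ne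
  eq_or_eq_neg iI_eventually tendsto_qq exists_qq const_of_deriv line_im line_re qParam_one iI_gt)
open Pool.Agent.Run7.h741.MF (hqe)

/-- exponential decay -/
lemma ff_bound {y : ℝ} (hy : 0 < y) : ∃ C : ℝ, 0 ≤ C ∧ ∀ z : ℂ, y ≤ z.im →
    ‖ff z‖ ≤ C * Real.exp (-(2 * Real.pi) * z.im) := by
  have hpi := Real.pi_pos
  have hr : Real.exp (-2 * Real.pi * y) < 1 := by
    rw [Real.exp_lt_one_iff]; nlinarith [mul_pos hpi hy]
  have hc : ContinuousOn phi (Metric.closedBall 0 (Real.exp (-2 * Real.pi * y))) :=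
    phi_diff.continuousOn.mono (Metric.closedBall_subset_ball hr)
  obtain ⟨C, hC⟩ := (isCompact_closedBall (0 : ℂ) _).exists_bound_of_continuousOn hc
  refine ⟨max C 0, le_max_right _ _, fun z hz => ?_⟩
  rw [ff_q (lt_of_lt_of_le hy hz), norm_mul, norm_qq, mul_comm]
  have h1 : ‖phi (qq z)‖ ≤ max C 0 := by
    refine (hC (qq z) ?_).trans (le_max_left _ _)
    rw [mem_closedBall_zero_iff, norm_qq]
    exact Real.exp_le_exp.2 (by nlinarith [mul_le_mul_of_nonneg_left hz hpi.le])
  have e : -2 * Real.pi * z.im = -(2 * Real.pi) * z.im := by ring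
  rw [e]
  exact mul_le_mul_of_nonneg_right h1 (Real.exp_pos _).le

lemma ff_line_cont (z : ℂ) {a : ℝ} (h : 0 < z.im + a) :
    ContinuousOn (fun t : ℝ => ff (z + t * Complex.I)) (Ici a) := by
  refine ff_cont.comp (by fun_prop) ?_
  intro t ht
  change 0 < (z + t * Complex.I).im
  rw [line_im]
  have : a ≤ t := ht
  linarith

/-- integrability near infinity -/
lemma ff_line_int (z : ℂ) {a : ℝ} (h : 0 < z.im + a) :
    IntegrableOn (fun t : ℝ => ff (z + t * Complex.I)) (Ioi a) := by
  obtain ⟨C, hC0, hC⟩ := ff_bound h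
  have hpi := Real.pi_pos
  have hcont := ff_line_cont z h
  refine Integrable.mono' (g := fun t : ℝ => C * Real.exp (-(2 * Real.pi) * z.im) *
    Real.exp (-(2 * Real.pi) * t)) ?_ ?_ ?_
  · exact ((exp_neg_integrableOn_Ioi a (by positivity : 0 < 2 * Real.pi)).const_mul _)
  · exact (hcont.mono Ioi_subset_Ici_self).aestronglyMeasurable measurableSet_Ioi
  · refine (ae_restrict_mem measurableSet_Ioi).mono fun t ht => ?_
    have ht' : a < t := ht
    refine (hC (z + t * Complex.I) (by rw [line_im]; linarith)).trans (le_of_eq ?_)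
    rw [line_im, mul_assoc, ← Real.exp_add]
    ring_nf

lemma F_line_deriv (z : ℂ) {t : ℝ} (ht : 0 < z.im + t) :
    HasDerivAt (fun t : ℝ => F (z + t * Complex.I)) (-(2 * Real.pi) * ff (z + t * Complex.I)) t := by
  have h1 : HasDerivAt (fun t : ℝ => z + (t : ℂ) * Complex.I) Complex.I t := by
    have := ((Complex.ofRealCLM.hasDerivAt (x := t)).mul_const Complex.I).const_add z
    simpa using this
  have h2 : HasDerivAt F _ (z + t * Complex.I) := F_deriv (by rw [line_im]; exact ht)
  refine (h2.comp t h1).congr_deriv ?_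
  linear_combination (2 * Real.pi * ff (z + t * Complex.I)) * Complex.I_mul_I

lemma F_line_tendsto (z : ℂ) : Tendsto (fun t : ℝ => F (z + t * Complex.I)) atTop (𝓝 0) := by
  refine F_QV.tendsto.comp ?_
  unfold iI
  rw [tendsto_comap_iff]
  have : Complex.im ∘ (fun t : ℝ => z + (t : ℂ) * Complex.I) = fun t => z.im + t := by
    ext t; exact line_im z t
  rw [this]
  exact tendsto_atTop_add_const_left _ _ tendsto_id

/-- the integral from a point of the upper half-plane or from a good rational -/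
lemma integral_line (z : ℂ) (hz : 0 ≤ z.im) {C : ℂ}
    (hint : IntegrableOn (fun t : ℝ => ff (z + t * Complex.I)) (Ioi 0))
    (hlim : Tendsto (fun t : ℝ => F (z + t * Complex.I)) (𝓝[>] 0) (𝓝 C)) :
    2 * Real.pi * ∫ t in Ioi (0 : ℝ), ff (z + t * Complex.I) = C := by
  set g : ℝ → ℂ := Function.update (fun t : ℝ => F (z + t * Complex.I)) 0 C with hg
  have h1 : ContinuousWithinAt g (Ici 0) 0 := by
    rw [continuousWithinAt_update_same]
    convert hlim using 2
    ext t
    simp
  have h2 : ∀ t ∈ Ioi (0 : ℝ), HasDerivAt g (-(2 * Real.pi) * ff (z + t * Complex.I)) t := by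
    intro t ht
    have ht' : 0 < t := ht
    refine (F_line_deriv z (by linarith)).congr_of_eventuallyEq ?_
    filter_upwards [isOpen_Ioi.mem_nhds ht] with s hs
    have hs' : (0 : ℝ) < s := hs
    rw [hg, Function.update_of_ne hs'.ne']
  have h3 : Tendsto g atTop (𝓝 0) := by
    refine (F_line_tendsto z).congr' ?_
    filter_upwards [eventually_gt_atTop 0] with s hs
    rw [hg, Function.update_of_ne hs.ne']
  have h4 := integral_Ioi_of_hasDerivAt_of_tendsto h1 h2 (hint.const_mul _) h3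
  have h5 : g 0 = C := by rw [hg, Function.update_self]
  have h6 : (∫ t in Ioi (0 : ℝ), -(2 * Real.pi : ℂ) * ff (z + t * Complex.I)) =
      -(2 * Real.pi : ℂ) * ∫ t in Ioi (0 : ℝ), ff (z + t * Complex.I) := integral_const_mul _ _
  rw [h6, h5] at h4
  linear_combination -h4

/-! ### periods -/

lemma I_pos : (0 : ℝ) < Complex.I.im := by simp

/-- the period of the matrix `(a, b; 21 c, d)` -/
noncomputable def per (a b c d : ℤ) : ℂ :=
  F ((a * Complex.I + b) / (21 * c * Complex.I + d)) - F Complex.I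

lemma per_spec {a b c d : ℤ} (h : a * d - b * (21 * c) = 1) {z : ℂ} (hz : 0 < z.im) :
    F ((a * z + b) / (21 * c * z + d)) = F z + per a b c d := by
  obtain ⟨p, hp⟩ := F_gamma h
  have h1 := hp _ I_pos
  unfold per
  rw [h1, hp z hz]
  ring

lemma per_eq {a b c d : ℤ} {z p : ℂ} (h : a * d - b * (21 * c) = 1) (hz : 0 < z.im)
    (hp : F ((a * z + b) / (21 * c * z + d)) = F z + p) : per a b c d = p := by
  have := per_spec h hz
  rw [hp] at this
  exact (add_left_cancel this).symm

/-! ### the integrals from rational points -/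

/-- the rational number `r` is `γ m (i∞)` -/
def Hit (r : ℂ) (m : ℂ → ℂ) : Prop := ∃ a b c d : ℤ, a * d - b * (21 * c) = 1 ∧
  ∃ K x : ℝ, 0 < K ∧ ∀ s : ℝ, 0 < s →
    (a * m (x + s * Complex.I) + b) / (21 * c * m (x + s * Complex.I) + d) =
      r + ((K * s)⁻¹ : ℝ) * Complex.I

section hit

variable {m j : ℂ → ℂ} (h : IsMap m j) {r : ℂ}
include h

/-- size of the form near a rational number -/
lemma hit_ff {a b c d : ℤ} (hdet : a * d - b * (21 * c) = 1)
    {K x : ℝ} (hK : 0 < K) (he : ∀ s : ℝ, 0 < s →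
    (a * m (x + s * Complex.I) + b) / (21 * c * m (x + s * Complex.I) + d) =
      r + ((K * s)⁻¹ : ℝ) * Complex.I) {s : ℝ} (hs : 0 < s) :
    ‖ff (r + ((K * s)⁻¹ : ℝ) * Complex.I)‖ =
      K * s ^ 2 * ‖ff (m (x + s * Complex.I)) * j (x + s * Complex.I)‖ := by
  have him : 0 < ((x : ℂ) + s * Complex.I).im := by simpa using hs
  set w : ℂ := (x : ℂ) + s * Complex.I with hw
  have hm := h.pos w him
  have h0 := (G_gamma hdet hm).2.1
  -- the derivative along the path
  have h1 : HasDerivAt (fun t : ℝ => (x : ℂ) + (t : ℂ) * Complex.I) Complex.I s := by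
    have := ((Complex.ofRealCLM.hasDerivAt (x := s)).mul_const Complex.I).const_add (x : ℂ)
    simpa using this
  have h2 : HasDerivAt m (j w) (x + (s : ℂ) * Complex.I) := h.der w him
  have h3 : HasDerivAt (fun z : ℂ => (a * z + b) / (21 * c * z + d))
      (((21 * c * m w + d) ^ 2)⁻¹) (m (x + (s : ℂ) * Complex.I)) := hasDerivAt_gamma hdet hm
  have h4 := h3.comp s (h2.comp s h1)
  have h5 : HasDerivAt (fun t : ℝ => r + ((K * t)⁻¹ : ℝ) * Complex.I)
      (((-(K * s ^ 2)⁻¹ : ℝ) : ℂ) * Complex.I) s := by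
    have e1 : HasDerivAt (fun t : ℝ => (K * t)⁻¹) (-(K * s ^ 2)⁻¹) s := by
      have := ((hasDerivAt_id s).const_mul K).inv (by positivity)
      refine this.congr_deriv ?_
      simp only [id]
      field_simp
    exact ((HasDerivAt.ofReal_comp e1).mul_const Complex.I).const_add r
  have h6 : (fun t : ℝ => r + ((K * t)⁻¹ : ℝ) * Complex.I) =ᶠ[𝓝 s]
      ((fun z : ℂ => (a * z + b) / (21 * c * z + d)) ∘ (m ∘ fun t : ℝ => (x : ℂ) + (t : ℂ) * Complex.I)) := by
    filter_upwards [isOpen_Ioi.mem_nhds (show s ∈ Ioi (0 : ℝ) from hs)] with t ht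
    exact (he t ht).symm
  have h7 := (h4.congr_of_eventuallyEq h6).unique h5
  have h8 : ((21 * c * m w + d) ^ 2)⁻¹ * j w = ((-(K * s ^ 2)⁻¹ : ℝ) : ℂ) := by
    have := mul_right_cancel₀ (b := Complex.I) Complex.I_ne_zero (a := ((21 * c * m w + d) ^ 2)⁻¹ * j w)
      (c := ((-(K * s ^ 2)⁻¹ : ℝ) : ℂ)) (by rw [← h7]; ring)
    exact this
  have h9 := ff_gamma hcp hqe hdet (m w) hm
  rw [← he s hs]
  change ‖ff ((a * m w + b) / (21 * c * m w + d))‖ = _
  rw [h9]
  have hj := h.jne w him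
  have h11 : (21 * c * m w + d) ^ 2 = -((K * s ^ 2 : ℝ) : ℂ) * j w := by
    have hKs : ((K * s ^ 2 : ℝ) : ℂ) ≠ 0 := by exact_mod_cast (by positivity : K * s ^ 2 ≠ 0)
    rw [Complex.ofReal_neg, Complex.ofReal_inv] at h8
    field_simp at h8
    linear_combination h8
  have h12 : (21 * c * m w + d) ^ 2 * ff (m w) = -((K * s ^ 2 : ℝ) : ℂ) * (ff (m w) * j w) := by
    rw [h11]; ring
  rw [h12, norm_mul, norm_neg, Complex.norm_real, Real.norm_of_nonneg (by positivity)]

/-- decay at the cusp -/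
lemma IsMap.decay : ∃ C T : ℝ, 0 ≤ C ∧ 0 < T ∧ ∀ z : ℂ, T < z.im →
    ‖ff (m z) * j z‖ ≤ C * Real.exp (-(2 * Real.pi) * z.im) := by
  obtain ⟨k, ak, hk⟩ := h.ffk
  obtain ⟨B, T1, hT1, hB⟩ := (QV.comp ak).bounded
  obtain ⟨T2, hT2, h2⟩ := iI_eventually.1 hk
  refine ⟨max B 0, max T1 T2 + 1, le_max_right _ _, by positivity, fun z hz => ?_⟩
  have e1 : T1 < z.im := by
    have := le_max_left T1 T2
    linarith
  have e2 : T2 < z.im := by
    have := le_max_right T1 T2
    linarith
  rw [h2 z e2, norm_mul, norm_qq, mul_comm]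
  have e : -2 * Real.pi * z.im = -(2 * Real.pi) * z.im := by ring
  rw [e]
  exact mul_le_mul_of_nonneg_right ((hB z e1).trans (le_max_left _ _)) (Real.exp_pos _).le

/-- integrability and value for an explicit matrix -/
lemma hit_per {C : ℂ} (hC : Tendsto (fun z => F (m z)) iI (𝓝 C)) (hr : r.im = 0) {a b c d : ℤ}
    (hdet : a * d - b * (21 * c) = 1) {K x : ℝ} (hK : 0 < K) (he : ∀ s : ℝ, 0 < s →
      (a * m (x + s * Complex.I) + b) / (21 * c * m (x + s * Complex.I) + d) =
      r + ((K * s)⁻¹ : ℝ) * Complex.I) :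
    IntegrableOn (fun t : ℝ => ff (r + t * Complex.I)) (Ioi 0) ∧
    Tendsto (fun t : ℝ => F (r + t * Complex.I)) (𝓝[>] 0) (𝓝 (C + per a b c d)) ∧
    2 * Real.pi * ∫ t in Ioi (0 : ℝ), ff (r + t * Complex.I) = C + per a b c d := by
  have hinv : ∀ t : ℝ, 0 < t → (K * (K * t)⁻¹)⁻¹ = t := fun t ht => by field_simp
  have hlim : Tendsto (fun t : ℝ => F (r + t * Complex.I)) (𝓝[>] 0) (𝓝 (C + per a b c d)) := by
    have ht : Tendsto (fun t : ℝ => (x : ℂ) + ((K * t)⁻¹ : ℝ) * Complex.I) (𝓝[>] 0) iI := by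
      unfold iI
      rw [tendsto_comap_iff]
      have e : Complex.im ∘ (fun t : ℝ => (x : ℂ) + ((K * t)⁻¹ : ℝ) * Complex.I) =
          fun t : ℝ => K⁻¹ * t⁻¹ := by
        ext t; simp [mul_comm]
      rw [e]
      exact tendsto_inv_nhdsGT_zero.const_mul_atTop (inv_pos.2 hK)
    have h1 := (hC.comp ht).add_const (per a b c d)
    refine h1.congr' ?_
    filter_upwards [self_mem_nhdsWithin] with t ht
    have ht0 : (0 : ℝ) < t := ht
    have hs0 : 0 < (K * t)⁻¹ := by positivity
    have h2 := he _ hs0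
    rw [hinv t ht0] at h2
    rw [← h2, per_spec hdet (h.pos _ (by simpa using hs0))]
    rfl
  have hint : IntegrableOn (fun t : ℝ => ff (r + t * Complex.I)) (Ioi 0) := by
    obtain ⟨D, T, hD0, hT0, hD⟩ := h.decay
    set t0 : ℝ := (K * (T + 1))⁻¹ with ht0
    have ht0p : 0 < t0 := by positivity
    rw [← Ioc_union_Ioi_eq_Ioi ht0p.le]
    refine IntegrableOn.union ?_ (ff_line_int r (by rw [hr]; linarith))
    have hcont : ContinuousOn (fun t : ℝ => ff (r + t * Complex.I)) (Ioc 0 t0) := by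
      have h1 := ff_cont.comp (f := fun t : ℝ => r + t * Complex.I) (s := Ioi 0) (by fun_prop)
          (fun u hu => by
            change 0 < (r + u * Complex.I).im
            rw [line_im, hr]
            simpa using hu)
      exact h1.mono Ioc_subset_Ioi_self
    refine IntegrableOn.of_bound (C := K * D) (by simp)
      (hcont.aestronglyMeasurable measurableSet_Ioc) ?_
    refine (ae_restrict_mem measurableSet_Ioc).mono fun t ht => ?_
    have htp : 0 < t := ht.1
    set s : ℝ := (K * t)⁻¹ with hs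
    have hs0 : 0 < s := by positivity
    have h1 := hit_ff h hdet hK he hs0
    rw [hs, hinv t htp] at h1
    rw [h1, ← hs]
    have h2 : T < s := by
      have h3 : T + 1 ≤ s := by
        rw [hs, le_inv_comm₀ (by positivity) (by positivity)]
        have h4 := ht.2
        rw [ht0] at h4
        have h5 : K * t ≤ K * (K * (T + 1))⁻¹ := mul_le_mul_of_nonneg_left h4 hK.le
        refine h5.trans (le_of_eq ?_)
        field_simp
      linarith
    have h4 : ((x : ℂ) + s * Complex.I).im = s := by simp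
    have h3 := hD (x + s * Complex.I) (by rw [h4]; exact h2)
    rw [h4] at h3
    have h5 : s ^ 2 * Real.exp (-(2 * Real.pi) * s) ≤ 1 := by
      have e1 := Real.add_one_le_exp s
      have e2 : s ^ 2 ≤ Real.exp (2 * Real.pi * s) := by
        have e3 : Real.exp (2 * s) ≤ Real.exp (2 * Real.pi * s) := by
          apply Real.exp_le_exp.2
          have := Real.pi_gt_three
          nlinarith
        refine le_trans ?_ e3
        rw [two_mul, Real.exp_add]
        nlinarith [Real.exp_pos s]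
      have e4 : Real.exp (-(2 * Real.pi) * s) = (Real.exp (2 * Real.pi * s))⁻¹ := by
        rw [← Real.exp_neg]; ring_nf
      rw [e4, ← div_eq_mul_inv]
      exact (div_le_one (Real.exp_pos _)).2 e2
    calc K * s ^ 2 * ‖ff (m (x + s * Complex.I)) * j (x + s * Complex.I)‖
        ≤ K * s ^ 2 * (D * Real.exp (-(2 * Real.pi) * s)) := by gcongr
      _ = K * D * (s ^ 2 * Real.exp (-(2 * Real.pi) * s)) := by ring
      _ ≤ K * D * 1 := by gcongr
      _ = K * D := mul_one _
  exact ⟨hint, hlim, integral_line r hr.ge hint hlim⟩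

lemma hit_prim {C : ℂ} (hC : Tendsto (fun z => F (m z)) iI (𝓝 C))
    (hr : r.im = 0) (hit : Hit r m) :
    IntegrableOn (fun t : ℝ => ff (r + t * Complex.I)) (Ioi 0) ∧
    ∃ a b c d : ℤ, a * d - b * (21 * c) = 1 ∧ ∃ p : ℂ,
      (∀ z : ℂ, 0 < z.im → F ((a * z + b) / (21 * c * z + d)) = F z + p) ∧
      2 * Real.pi * ∫ t in Ioi (0 : ℝ), ff (r + t * Complex.I) = C + p := by
  obtain ⟨a, b, c, d, hdet, K, x, hK, he⟩ := hit
  obtain ⟨h1, h2, h3⟩ := hit_per h hC hr hdet hK he
  exact ⟨h1, a, b, c, d, hdet, per a b c d, fun z hz => per_spec hdet hz, h3⟩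

end hit

end Pool.Agent.Run7.h741.MG
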