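import Pool.Agent.Run7.h741.MG.Lat

/-!
The expansion of the form has integral coefficients.
-/

set_option autoImplicit false

open Filter Topology Set

namespace Pool.Agent.Run7.h741.MG

open Pool.Agent.W97.TW
open Pool.Agent.W97.MT (qq qq_ne norm_qq norm_qq_lt im_mul z_ne H_open QV iI iI_pos iI_eventually tendsto_qq
  S_QEXP S_INJ S_ODE hasDerivAt_qq tpi_ne line_im line_re inv_I im_aux exists_qq Qd_diff Q_ne Q_ne_pow
  wA wA_same wA_eq wA_analytic RepC Rep Tr)
open Pool.Agent.Run7.h741.MF (hqe hinj hode num)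

/-- a series whose square is even is even -/
lemma even_of_sq {A B : PowerSeries ℤ} (h : A ^ 2 = 2 * B) : ∃ C : PowerSeries ℤ, A = 2 * C := by
  have h20 : (2 : ZMod 2) = 0 := rfl
  have : Fact (Nat.Prime 2) := ⟨Nat.prime_two⟩
  have h1 := congrArg (PowerSeries.map (Int.castRingHom (ZMod 2))) h
  rw [map_pow, map_mul, map_ofNat] at h1
  have h2 : (2 : PowerSeries (ZMod 2)) = 0 := by
    have h3 : (2 : PowerSeries (ZMod 2)) = PowerSeries.C (2 : ZMod 2) := by
      rw [map_ofNat]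
    rw [h3, h20, map_zero]
  rw [h2, zero_mul] at h1
  have h3 : PowerSeries.map (Int.castRingHom (ZMod 2)) A = 0 := pow_eq_zero_iff (two_ne_zero) |>.1 h1
  have h4 : ∀ n : ℕ, (2 : ℤ) ∣ PowerSeries.coeff n A := by
    intro n
    have h5 := congrArg (PowerSeries.coeff n) h3
    rw [PowerSeries.coeff_map, map_zero] at h5
    have h6 : ((PowerSeries.coeff n A : ℤ) : ZMod 2) = 0 := by simpa using h5
    exact_mod_cast (ZMod.intCast_zmod_eq_zero_iff_dvd _ 2).1 h6
  choose c hc using h4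
  refine ⟨PowerSeries.mk c, ?_⟩
  ext n
  have h7 : (2 : PowerSeries ℤ) = PowerSeries.C (2 : ℤ) := by rw [map_ofNat]
  rw [h7, PowerSeries.coeff_C_mul, PowerSeries.coeff_mk, hc n]

/-- cancellation of a scalar -/
lemma cancel_num {n : ℕ} (hn : n ≠ 0) {A B : PowerSeries ℤ}
    (h : PowerSeries.C (n : ℤ) * A = PowerSeries.C (n : ℤ) * B) : A = B := by
  refine mul_left_cancel₀ ?_ h
  intro h0
  have := congrArg (PowerSeries.coeff 0) h0
  rw [PowerSeries.coeff_zero_C, map_zero] at this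
  exact hn (by exact_mod_cast this)

lemma xi_diff_ball : DifferentiableOn ℂ xi (Metric.ball 0 1) := fun _ hq =>
  (xi_diffAt (by simpa using hq)).differentiableWithinAt

/-- transfer of an identity on the upper half-plane to the disc -/
lemma disc_eq {A B : ℂ → ℂ} {PA PB : PowerSeries ℂ} (hA : RepC A PA) (hB : RepC B PB)
    (h : ∀ z : ℂ, 0 < z.im → A (qq z) = B (qq z)) : PA = PB := by
  have h0 : A 0 = B 0 := by
    have t1 : Tendsto (fun z => A (qq z)) iI (𝓝 (A 0)) :=
      hA.analyticAt_zero.continuousAt.tendsto.comp tendsto_qq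
    have t2 : Tendsto (fun z => B (qq z)) iI (𝓝 (B 0)) :=
      hB.analyticAt_zero.continuousAt.tendsto.comp tendsto_qq
    exact tendsto_nhds_unique t1 (t2.congr' (iI_pos.mono fun z hz => (h z hz).symm))
  refine hA.unique (hB.congr fun q hq => ?_)
  by_cases hq0 : q = 0
  · rw [hq0, h0]
  · obtain ⟨z, hz, rfl⟩ := exists_qq hq hq0
    exact h z hz

lemma disc_eqZ {A B : ℂ → ℂ} {PA PB : PowerSeries ℤ} (hA : Rep A PA) (hB : Rep B PB)
    (h : ∀ z : ℂ, 0 < z.im → A (qq z) = B (qq z)) : PA = PB :=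
  W97.MT.map_injective (disc_eq hA hB h)

/-- the derivative of `h(q)/q^n` -/
lemma deriv_q {h : ℂ → ℂ} {q : ℂ} (hd : DifferentiableAt ℂ h q) (hq : q ≠ 0) (n : ℕ) :
    q ^ n * (q * deriv (fun t => h t / t ^ n) q) = q * deriv h q - n * h q := by
  have h1 := (hd.hasDerivAt.div (hasDerivAt_pow n q) (pow_ne_zero n hq)).deriv
  have h2 : deriv (fun t => h t / t ^ n) q = deriv (h / fun x => x ^ n) q := rfl
  rw [h2, h1]
  rcases n with _ | n
  · simp
  · have : q ^ n ≠ 0 := pow_ne_zero n hq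
    rw [Nat.add_sub_cancel, pow_succ]
    field_simp

/-- the logarithmic derivative of a function of `q` -/
lemma deriv_qq {g h : ℂ → ℂ} (n : ℕ) (hg : ∀ z : ℂ, 0 < z.im → g z = h (qq z) / qq z ^ n)
    {z : ℂ} (hz : 0 < z.im) (hd : DifferentiableAt ℂ h (qq z)) :
    qq z ^ n * deriv g z = 2 * Real.pi * Complex.I * (qq z * deriv h (qq z) - n * h (qq z)) := by
  have hq0 := qq_ne z
  have hd' : DifferentiableAt ℂ (fun t => h t / t ^ n) (qq z) :=
    hd.div (by fun_prop) (pow_ne_zero n hq0)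
  have h1 := hd'.hasDerivAt.comp z (hasDerivAt_qq z)
  have h2 : g =ᶠ[𝓝 z] (fun t => h t / t ^ n) ∘ qq := by
    filter_upwards [H_open.mem_nhds hz] with w hw
    exact hg w hw
  rw [(h1.congr_of_eventuallyEq h2).deriv, ← deriv_q hd hq0 n]
  ring

lemma coeffs {Ξ S Θ P : PowerSeries ℤ} (tΞ : Tr Ξ lxi) (tΘ : Tr Θ lth)
    (hS : Θ + 7 * PowerSeries.X ^ 3 = 2 * S) (hrel : PowerSeries.X * PowerSeries.derivative ℤ Ξ -
      2 * Ξ = P * S) :
    PowerSeries.coeff 0 P = 1 ∧ PowerSeries.coeff 1 P = -1 ∧ PowerSeries.coeff 2 P = 1 ∧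
    PowerSeries.coeff 6 P = -1 := by
  have k1 : ∀ n : ℕ, n < 13 → PowerSeries.coeff n (PowerSeries.X * PowerSeries.derivative ℤ Ξ -
      2 * Ξ) = ((n : ℤ) - 2) * lxi.getD n 0 := by
    intro n hn
    have e1 := tΞ n hn
    have e2 : PowerSeries.coeff n (PowerSeries.X * PowerSeries.derivative ℤ Ξ) =
        (n : ℤ) * PowerSeries.coeff n Ξ := by
      rcases n with _ | n
      · simp
      · rw [PowerSeries.coeff_succ_X_mul, PowerSeries.coeff_derivative]
        push_cast; ring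
    rw [map_sub, e2, num 2, PowerSeries.coeff_C_mul, e1]
    ring
  have k2 : ∀ n : ℕ, n < 13 → 2 * PowerSeries.coeff n S = lth.getD n 0 + if n = 3 then 7 else 0 := by
    intro n hn
    have e1 := tΘ n hn
    have e2 := congrArg (PowerSeries.coeff n) hS
    rw [map_add, num 7, num 2, PowerSeries.coeff_C_mul, PowerSeries.coeff_C_mul,
      PowerSeries.coeff_X_pow, e1] at e2
    rw [← e2]
    split_ifs <;> ring
  have k3 : ∀ n : ℕ, n < 13 → ((n : ℤ) - 2) * lxi.getD n 0 =
      ∑ k ∈ Finset.range (n + 1), PowerSeries.coeff k P * PowerSeries.coeff (n - k) S := by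
    intro n hn
    rw [← k1 n hn, hrel, PowerSeries.coeff_mul,
      Finset.Nat.sum_antidiagonal_eq_sum_range_succ
        (fun i j => PowerSeries.coeff i P * PowerSeries.coeff j S)]
  clear k1 hrel hS tΞ tΘ
  generalize hs : (fun n => PowerSeries.coeff n S) = s at *
  generalize hp : (fun n => PowerSeries.coeff n P) = p at *
  have hs' : ∀ n, PowerSeries.coeff n S = s n := fun n => by rw [← hs]
  have hp' : ∀ n, PowerSeries.coeff n P = p n := fun n => by rw [← hp]
  simp only [hs'] at k2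
  simp only [hs', hp'] at k3
  simp only [hp']
  clear hs' hp' hs hp
  have s0 : 2 * s 0 = -4 := k2 0 (by norm_num)
  have s1 : 2 * s 1 = -6 := k2 1 (by norm_num)
  have s2 : 2 * s 2 = -2 := k2 2 (by norm_num)
  have s3 : 2 * s 3 = 0 := k2 3 (by norm_num)
  have s4 : 2 * s 4 = -4 := k2 4 (by norm_num)
  have s5 : 2 * s 5 = -16 := k2 5 (by norm_num)
  have s6 : 2 * s 6 = -10 := k2 6 (by norm_num)
  have s0' : s 0 = -2 := by omega
  have s1' : s 1 = -3 := by omega
  have s2' : s 2 = -1 := by omega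
  have s3' : s 3 = 0 := by omega
  have s4' : s 4 = -2 := by omega
  have s5' : s 5 = -8 := by omega
  have s6' : s 6 = -5 := by omega
  have p0 := k3 0 (by norm_num)
  have p1 := k3 1 (by norm_num)
  have p2 := k3 2 (by norm_num)
  have p3 := k3 3 (by norm_num)
  have p4 := k3 4 (by norm_num)
  have p5 := k3 5 (by norm_num)
  have p6 := k3 6 (by norm_num)
  simp only [lxi, List.getD_cons_zero, List.getD_cons_succ, Finset.sum_range_succ,
    Finset.sum_range_zero, Nat.sub_self, Nat.sub_zero, Nat.reduceSub, Nat.reduceAdd,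
    s0', s1', s2', s3', s4', s5', s6'] at p0 p1 p2 p3 p4 p5 p6
  push_cast at p0 p1 p2 p3 p4 p5 p6
  have q0 : p 0 = 1 := by linarith
  have q1 : p 1 = -1 := by linarith
  have q2 : p 2 = 1 := by linarith
  have q3 : p 3 = -1 := by linarith
  have q4 : p 4 = -2 := by linarith
  have q5 : p 5 = -1 := by linarith
  exact ⟨q0, q1, q2, by linarith⟩

theorem exists_P : ∃ P Ξ S : PowerSeries ℤ, Rep phi P ∧ Rep xi Ξ ∧
    PowerSeries.constantCoeff Ξ = 1 ∧ PowerSeries.constantCoeff S = -2 ∧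
    PowerSeries.X * PowerSeries.derivative ℤ Ξ - 2 * Ξ = P * S ∧
    S ^ 2 = 4 * Ξ ^ 3 - 23 * PowerSeries.X ^ 2 * Ξ ^ 2 + 28 * PowerSeries.X ^ 4 * Ξ ∧
    PowerSeries.coeff 0 P = 1 ∧ PowerSeries.coeff 1 P = -1 ∧ PowerSeries.coeff 2 P = 1 ∧
    PowerSeries.coeff 6 P = -1 := by
  obtain ⟨Ξ, U, Θ, rΞ, rU, tΞ, tU, hΘ, tΘ⟩ := expansions hqe
  obtain ⟨th, rΘ, hth⟩ := exists_theta rΞ rU hΘ
  -- the square
  have h1 : (Θ + 7 * PowerSeries.X ^ 3) ^ 2 = 2 * (2 * (4 * Ξ ^ 3 - 23 * PowerSeries.X ^ 2 * Ξ ^ 2 +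
      28 * PowerSeries.X ^ 4 * Ξ)) := by
    rw [num 7, num 2, num 4, num 23, num 28]
    refine disc_eqZ ((rΘ.add ((Rep.C 7).mul (Rep.X.pow 3))).pow 2)
      ((Rep.C 2).mul ((Rep.C 2).mul ((((Rep.C 4).mul (rΞ.pow 3)).sub (((Rep.C 23).mul
        (Rep.X.pow 2)).mul (rΞ.pow 2))).add (((Rep.C 28).mul (Rep.X.pow 4)).mul rΞ)))) ?_
    intro z hz
    have e1 := RR_sq hcp hqe hz
    unfold RR at e1
    push_cast
    rw [← hth z hz, ← qq_X1 hz]
    linear_combination (4 * qq z ^ 6) * e1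
  obtain ⟨S, hS⟩ := even_of_sq h1
  have h2 : S ^ 2 = 4 * Ξ ^ 3 - 23 * PowerSeries.X ^ 2 * Ξ ^ 2 + 28 * PowerSeries.X ^ 4 * Ξ := by
    rw [hS] at h1
    refine cancel_num (n := 4) (by norm_num) ?_
    rw [Nat.cast_ofNat, map_ofNat]
    linear_combination h1
  obtain ⟨H, hH⟩ := even_of_sq (A := S - PowerSeries.X * (Ξ - 2 * PowerSeries.X ^ 2))
    (B := 2 * Ξ ^ 3 - 11 * PowerSeries.X ^ 2 * Ξ ^ 2 + 12 * PowerSeries.X ^ 4 * Ξ +
      2 * PowerSeries.X ^ 6 - S * (PowerSeries.X * (Ξ - 2 * PowerSeries.X ^ 2))) (by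
    linear_combination h2)
  -- the functions
  have rS : Rep (fun q => (th q + 7 * q ^ 3) / 2) S := by
    have e1 : Rep (fun q => th q + 7 * q ^ 3) (PowerSeries.C 2 * S) := by
      have := rΘ.add ((Rep.C 7).mul (Rep.X.pow 3))
      rw [← num 7, hS, num 2] at this
      push_cast at this
      exact this
    have e2 := e1
    unfold W97.MT.Rep at e2
    rw [map_mul, PowerSeries.map_C] at e2
    unfold W97.MT.Rep
    have e3 := (RepC.C (1 / 2)).mul e2
    have e4 : PowerSeries.C (1 / 2 : ℂ) * (PowerSeries.C ((Int.castRingHom ℂ) 2) *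
        PowerSeries.map (Int.castRingHom ℂ) S) = PowerSeries.map (Int.castRingHom ℂ) S := by
      rw [← mul_assoc, ← map_mul]
      norm_num
    rw [e4] at e3
    exact e3.congr fun q hq => by ring
  have rH : Rep (fun q => ((th q + 7 * q ^ 3) / 2 - q * (xi q - 2 * q ^ 2)) / 2) H := by
    have e1 : Rep (fun q => (th q + 7 * q ^ 3) / 2 - q * (xi q - 2 * q ^ 2)) (PowerSeries.C 2 * H) := by
      have := rS.sub (Rep.X.mul (rΞ.sub ((Rep.C 2).mul (Rep.X.pow 2))))
      rw [← num 2, hH, num 2] at this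
      push_cast at this
      exact this
    have e2 := e1
    unfold W97.MT.Rep at e2
    rw [map_mul, PowerSeries.map_C] at e2
    unfold W97.MT.Rep
    have e3 := (RepC.C (1 / 2)).mul e2
    have e4 : PowerSeries.C (1 / 2 : ℂ) * (PowerSeries.C ((Int.castRingHom ℂ) 2) *
        PowerSeries.map (Int.castRingHom ℂ) H) = PowerSeries.map (Int.castRingHom ℂ) H := by
      rw [← mul_assoc, ← map_mul]
      norm_num
    rw [e4] at e3
    exact e3.congr fun q hq => by ring
  set s : ℂ → ℂ := fun q => (th q + 7 * q ^ 3) / 2 with hs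
  set h : ℂ → ℂ := fun q => ((th q + 7 * q ^ 3) / 2 - q * (xi q - 2 * q ^ 2)) / 2 with hh
  have hRR : ∀ z : ℂ, 0 < z.im → qq z ^ 3 * RR z = s (qq z) := by
    intro z hz
    simp only [hs]
    rw [← hth z hz]
    unfold RR
    ring
  obtain ⟨Pc, rP⟩ := RepC.exists_of_differentiableOn phi_diff
  -- the first relation
  have f1 : ∀ z : ℂ, 0 < z.im →
      qq z * deriv xi (qq z) - 2 * xi (qq z) = phi (qq z) * s (qq z) := by
    intro z hz
    have e1 := deriv_qq (g := X1) (h := xi) 2 (fun z hz => X1_q hz) hz (xi_diffAt (norm_qq_lt hz))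
    rw [← ff_mul_R hcp hqe hz, ff_q hz] at e1
    have e2 := hRR z hz
    refine mul_left_cancel₀ tpi_ne ?_
    push_cast at e1
    rw [← e1, ← e2]
    ring
  have f2 : ∀ z : ℂ, 0 < z.im →
      qq z * deriv h (qq z) - 3 * h (qq z) = phi (qq z) * (3 * (xi (qq z) - 2 * qq z ^ 2) ^ 2 -
        4 * qq z ^ 4 - qq z * h (qq z)) := by
    intro z hz
    have hball : qq z ∈ Metric.ball (0 : ℂ) 1 := by simpa using norm_qq_lt hz
    have hg : ∀ z : ℂ, 0 < z.im → (RR z - (X1 z - 2)) / 2 = h (qq z) / qq z ^ 3 := by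
      intro w hw
      have hw0 := qq_ne w
      rw [eq_div_iff (pow_ne_zero 3 hw0)]
      have e1 := hRR w hw
      simp only [hs] at e1
      simp only [hh]
      rw [← e1, ← qq_X1 hw]
      ring
    have e1 := deriv_qq (g := fun z => (RR z - (X1 z - 2)) / 2) (h := h) 3 hg hz
      ((RepC.differentiableOn rH).differentiableAt (Metric.isOpen_ball.mem_nhds hball))
    have e2 : deriv (fun z => (RR z - (X1 z - 2)) / 2) z = (deriv RR z - deriv X1 z) / 2 := by
      have h1 := ((RR_diff hz).hasDerivAt.sub ((X1_diff hz).hasDerivAt.sub_const 2)).div_const 2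
      exact h1.deriv
    have e3 := ff_mul_R hcp hqe hz
    have e4 := ff_mul_D hcp hqe hz
    rw [e2] at e1
    have e5 := hg z hz
    have e6 := qq_ne z
    refine mul_left_cancel₀ tpi_ne ?_
    push_cast at e1
    rw [← e1, ← e3, ← qq_X1 hz]
    have e7 : deriv RR z = 2 * Real.pi * Complex.I * ff z * (12 * X1 z ^ 2 - 46 * X1 z + 28) / 2 := by
      rw [e4]; ring
    have e8 : h (qq z) = qq z ^ 3 * ((RR z - (X1 z - 2)) / 2) := by
      rw [e5]; field_simp
    rw [e7, e8, ff_q hz]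
    ring
  have g1 : PowerSeries.map (Int.castRingHom ℂ) (PowerSeries.X * PowerSeries.derivative ℤ Ξ - 2 * Ξ) =
      Pc * PowerSeries.map (Int.castRingHom ℂ) S := by
    have r1 : Rep (fun q => q * deriv xi q - 2 * xi q)
        (PowerSeries.X * PowerSeries.derivative ℤ Ξ - 2 * Ξ) := by
      have := rΞ.theta.sub ((Rep.C 2).mul rΞ)
      rw [← num 2] at this
      exact this.congr fun q hq => by push_cast; ring
    exact disc_eq r1 (rP.mul rS) fun z hz => f1 z hz
  have g2 : PowerSeries.map (Int.castRingHom ℂ) (PowerSeries.X * PowerSeries.derivative ℤ H - 3 * H) =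
      Pc * PowerSeries.map (Int.castRingHom ℂ) (3 * (Ξ - 2 * PowerSeries.X ^ 2) ^ 2 -
        4 * PowerSeries.X ^ 4 - PowerSeries.X * H) := by
    have r1 : Rep (fun q => q * deriv h q - 3 * h q)
        (PowerSeries.X * PowerSeries.derivative ℤ H - 3 * H) := by
      have := rH.theta.sub ((Rep.C 3).mul rH)
      rw [← num 3] at this
      exact this.congr fun q hq => by push_cast; ring
    have r2 : Rep (fun q => 3 * (xi q - 2 * q ^ 2) ^ 2 - 4 * q ^ 4 - q * h q)
        (3 * (Ξ - 2 * PowerSeries.X ^ 2) ^ 2 - 4 * PowerSeries.X ^ 4 - PowerSeries.X * H) := by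
      have := ((((Rep.C 3).mul ((rΞ.sub ((Rep.C 2).mul (Rep.X.pow 2))).pow 2)).sub
        ((Rep.C 4).mul (Rep.X.pow 4))).sub (Rep.X.mul rH))
      rw [← num 2, ← num 3, ← num 4] at this
      exact this.congr fun q hq => by push_cast; ring
    exact disc_eq r1 (rP.mul r2) fun z hz => f2 z hz
  -- the constant terms
  have cΞ : PowerSeries.constantCoeff Ξ = 1 := by
    have := tΞ 0 (by norm_num)
    simpa [lxi] using this
  have cΘ : PowerSeries.constantCoeff Θ = -4 := by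
    have := tΘ 0 (by norm_num)
    simpa [lth] using this
  have cS : PowerSeries.constantCoeff S = -2 := by
    have := congrArg PowerSeries.constantCoeff hS
    simp only [map_add, map_mul, map_pow, PowerSeries.constantCoeff_X, map_ofNat, cΘ] at this
    omega
  have cB : PowerSeries.constantCoeff (3 * (Ξ - 2 * PowerSeries.X ^ 2) ^ 2 -
      4 * PowerSeries.X ^ 4 - PowerSeries.X * H) = 3 := by
    simp only [map_sub, map_add, map_mul, map_pow, PowerSeries.constantCoeff_X, map_ofNat, cΞ]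
    norm_num
  obtain ⟨B, hB⟩ : ∃ B, B = 3 * (Ξ - 2 * PowerSeries.X ^ 2) ^ 2 - 4 * PowerSeries.X ^ 4 -
    PowerSeries.X * H := ⟨_, rfl⟩
  rw [← hB] at g2 cB
  have hu : IsUnit (S + B) := by
    rw [PowerSeries.isUnit_iff_constantCoeff, map_add, cS, cB]
    norm_num
  obtain ⟨W, hW⟩ := hu.exists_right_inv
  obtain ⟨N1, hN1⟩ : ∃ N1, N1 = PowerSeries.X * PowerSeries.derivative ℤ Ξ - 2 * Ξ := ⟨_, rfl⟩
  obtain ⟨N2, hN2⟩ : ∃ N2, N2 = PowerSeries.X * PowerSeries.derivative ℤ H - 3 * H := ⟨_, rfl⟩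
  rw [← hN1] at g1
  rw [← hN2] at g2
  have hPc : Pc = PowerSeries.map (Int.castRingHom ℂ) ((N1 + N2) * W) := by
    have e1 := congrArg (PowerSeries.map (Int.castRingHom ℂ)) hW
    rw [map_mul, map_add, map_one] at e1
    rw [map_mul, map_add, g1, g2]
    linear_combination (-Pc) * e1
  obtain ⟨P, hP⟩ : ∃ P, P = (N1 + N2) * W := ⟨_, rfl⟩
  rw [← hP] at hPc
  have hrel : N1 = P * S := by
    refine W97.MT.map_injective ?_
    rw [map_mul, ← hPc, g1]
  have rP' : W97.MT.Rep phi P := by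
    unfold W97.MT.Rep
    rw [← hPc]; exact rP
  rw [hN1] at hrel
  exact ⟨P, Ξ, S, rP', rΞ, cΞ, cS, hrel, h2, coeffs tΞ tΘ hS hrel⟩

end Pool.Agent.Run7.h741.MG
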